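import Mathlib
import Pool.Agent.Helper47.WA.Core

/-!
# Curves of every genus that violate the Hasse principle and satisfy the section conjecture are
# adelically dense

Let `g ≥ 2`, `n = 2 g + 2`, let `S` be a finite set of primes and let `y² = g_∞(x)` over `ℝ` and
`y² = g_p(x)` over `ℚ_p`, `p ∈ S`, be ARBITRARY hyperelliptic curves of genus `g` which have a point
over `ℝ` and `ℚ_p`.  Then there is a hyperelliptic curve `C : y² = f(x)` over `ℚ`, `f ∈ ℚ[x]` irreducible
of degree `n`, with coefficients as close as one likes to those of `g_∞` and of `g_p` for all `p ∈ S`, such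
that `C` has points over `ℝ` and over `ℚ_p` for all prime numbers `p`, has no rational point, and such
that neither the fundamental group of `C` nor that of an open subcurve of `C` or of a smooth curve
over `ℚ` which dominates `C` has a section.

So in the space of all hyperelliptic curves of a given genus `≥ 2` (for genus 2: of all curves, that is, in
the moduli space of curves of genus 2) the curves over `ℚ` which have points everywhere locally, and for
which the section conjecture holds because there are no sections, satisfy weak approximation: they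
are dense in the product over `v ∈ S ∪ {∞}` of the sets of all curves over `ℚ_v` with a point over
`ℚ_v`.  For one curve `y² = f(x)` the proof also shows that there are such twists `D y² = f(x)` in which
`D` is a square in `ℝ` and in `ℚ_p` for all `p ∈ S`.

The local condition used in the theorem is that some value of `g_v` at a point of `ℚ_v` is a nonzero
square.  If `g_v` is separable of degree `n` or `n - 1`, this means that the smooth projective curve
`y² = g_v(x)` has a point over `ℚ_v` (near a smooth point, at infinity or with `y = 0`, too, there are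
points with finite `x` and `y ≠ 0`); singular equations are also admitted.

The fundamental group is described through valuations.  Let `U` be a smooth geometrically connected
curve over `k` with function field `F`, let `Ω` be an algebraic closure of `F`, and let `F_U` be the
maximal extension of `F` inside `Ω` which is unramified over the closed points of `U`, that is, over
their local rings, which are valuation rings of `F`.  Then `π₁(U) = Gal(F_U/F)`, and the map
`π₁(U) → G_k` is the restriction of automorphisms to the algebraic closure of `k` in `Ω`.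

Proof.  The local theory of the sections of twists and the large sieve are in the library
(`LocallySolubleTwists`: sections for 100% of the everywhere locally soluble twists of one curve).
By weak approximation there are `f₁ ∈ ℚ[x]`, an Eisenstein polynomial for an auxiliary prime, and
`x₀ ∈ ℚ` near the given data, so that `f₁(x₀)` is a square in `ℚ_v` for `v ∈ S ∪ {∞}`.  The twist of
`y² = f₁(x)` by the squarefree part `D₀` of `f₁(x₀)` has a rational point.  The integers `m ≤ X` composed of
primes modulo which `f₁` has a zero, and which are squares modulo `W`, for a suitable multiple `W` of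
`8 ∏_{p ∈ S} p`, number at least `c X / log X * exp(∑ 1/q)`, the sum over the primes `q ≤ X` modulo which
`f₁` has a zero, and the twists by `D₀ m` are everywhere locally soluble.  The large sieve shows that
only `O((log X) ^ (-δ))` times this number of squarefree `D`, `|D| ≤ X`, belong to twists with a rational
point or a section.  Finally the equation is scaled by the square of a rational number which is
`v`-adically close to the inverse of a square root of `D₀ m`, for `v ∈ S ∪ {∞}`.
-/

set_option autoImplicit false

open Polynomial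

namespace Pool.Agent.Results.MP_c1dca2_ag.AdelicDensity

universe u v w

/-- The curve `y² = F(x, w)`, where `F(x, w) = ∑ a_i x^i w^(n-i)` is the homogenisation of
`f = ∑ a_i x^i`, `n = deg f`, has a point over the field `K`; for `n` even these are the points of the
projective curve `y² = f(x)`. -/
def CurvePoint (f : ℚ[X]) (K : Type) [Field K] [CharZero K] : Prop :=
  ∃ x w y : K, (x ≠ 0 ∨ w ≠ 0) ∧
    y ^ 2 = ∑ i ∈ Finset.range (f.natDegree + 1), (f.coeff i : K) * x ^ i * w ^ (f.natDegree - i)

/-- The curve `y² = f(x)` is everywhere locally soluble: it has points over `ℝ` and over `ℚ_p` for all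
primes `p`. -/
def LocallySoluble (f : ℚ[X]) : Prop :=
  CurvePoint f ℝ ∧ ∀ (p : ℕ) [Fact p.Prime], CurvePoint f ℚ_[p]

/-- The polynomial `g` over the field `K` takes at some point of `K` a value which is a nonzero square:
the curve `y² = g(x)` has a point over `K` with finite `x` and `y ≠ 0`. -/
def HasPoint {K : Type} [Field K] (g : K[X]) : Prop :=
  ∃ x y : K, y ≠ 0 ∧ y ^ 2 = g.eval x

section definitions

variable (k : Type u) (F : Type v) (Ω : Type w) [Field k] [Field F] [Field Ω] [Algebra k F]
  [Algebra F Ω] [Algebra k Ω]

/-- The inertia group of the valuation ring `W` of `Ω`, as a subgroup of `Gal(Ω/F)`: the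
automorphisms of `Ω` over `F` that map `W` onto itself and act as the identity on its residue
field. -/
noncomputable def inertia (W : ValuationSubring Ω) : Subgroup (Ω ≃ₐ[F] Ω) :=
  (W.inertiaSubgroup F).map (W.decompositionSubgroup F).subtype

/-- `F_U`, for a set `U` of valuation rings of `F`: the elements of `Ω` fixed by the inertia groups
of all valuation rings `W` of `Ω` with `W ∩ F ∈ U`.  If `Ω` is an algebraic closure of a field `F`
of characteristic zero, this is the maximal extension of `F` in `Ω` unramified over `U`. -/
noncomputable def unramified (U : Set (ValuationSubring F)) : IntermediateField F Ω :=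
  ⨅ W : {W : ValuationSubring Ω // W.comap (algebraMap F Ω) ∈ U},
    IntermediateField.fixedField (inertia F Ω W.1)

/-- The map `τ : M → M` acts as `σ : K → K` on the elements that the fields `K` and `M` have in
common when they are regarded as subfields of `Ω` through `i` and `j`. -/
def ActsAs {K M Ω : Type*} [Field K] [Field M] [Field Ω] (i : K →+* Ω) (j : M →+* Ω) (σ : K → K)
    (τ : M → M) : Prop :=
  ∀ c z, j z = i c → j (τ z) = i (σ c)

/-- Let `k ⊆ K ⊆ Ω` and `F ⊆ M ⊆ Ω` be fields.  A splitting of `Gal(M/F) → Gal(K/k)`: a continuous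
homomorphism `s` from `Gal(K/k)` to `Gal(M/F)` such that `s(σ)` acts as `σ` on the elements of
`K ∩ M`. -/
structure Splitting (K M : Type*) [Field K] [Field M] [Algebra k K] [Algebra F M] [Algebra K Ω]
    [Algebra M Ω] where
  /-- the homomorphism `Gal(K/k) → Gal(M/F)` -/
  toHom : (K ≃ₐ[k] K) →* (M ≃ₐ[F] M)
  cont : Continuous toHom
  compat : ∀ σ : K ≃ₐ[k] K, ActsAs (algebraMap K Ω) (algebraMap M Ω) σ (toHom σ)

/-- The sections of `π₁(U) = Gal(F_U/F) → G_k`: the continuous homomorphisms `s` from
`G_k = Gal(k̄/k)` to `Gal(F_U/F)`, where `k̄` is the algebraic closure of `k` in `Ω`, such that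
`s(σ)` acts as `σ` on the elements of `k̄`. -/
def GaloisSection (U : Set (ValuationSubring F)) : Type w :=
  Splitting k F Ω (algebraicClosure k Ω) (unramified F Ω U)

end definitions

/-- Let `F` be any field over `ℚ` that contains a point `(x, y)` of the curve `y² = f(x)`, for
instance the function field of this curve or of a curve that dominates it, and let `Ω` be an algebraic
closure of `F`.  Then for every set `U` of valuation rings of `F` over `ℚ` there is no section of
`π₁(U) → G_ℚ`.  If `F` is the function field of a curve over `ℚ`, such `U` are given by its smooth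
projective model and by all open subcurves of it. -/
def NoSection (f : ℚ[X]) : Prop :=
  ∀ (F : Type v) (Ω : Type w) [Field F] [Field Ω] [Algebra ℚ F] [Algebra F Ω] [Algebra ℚ Ω]
    [IsScalarTower ℚ F Ω] [IsAlgClosure F Ω] (x y : F) (U : Set (ValuationSubring F)),
    y ^ 2 = aeval x f → (∀ O ∈ U, ∀ c : ℚ, algebraMap ℚ F c ∈ O) →
      IsEmpty (GaloisSection ℚ F Ω U)

lemma toSection {k : Type u} {F : Type v} {Ω : Type w} [Field k] [Field F] [Field Ω] [Algebra k F]
    [Algebra F Ω] [Algebra k Ω] {U : Set (ValuationSubring F)} (G : GaloisSection k F Ω U) :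
    Nonempty (Pool.Agent.W620.SC.GSection k F Ω U) :=
  ⟨⟨G.toHom, G.cont, G.compat⟩⟩

lemma curvePoint_iff {f : ℤ[X]} {D : ℤ} {l : ℚ} (hl : l ≠ 0) (hD : D ≠ 0) {h : ℚ[X]}
    (hdeg : h.natDegree = f.natDegree) (hh : ∀ i, h.coeff i = l ^ 2 * D * f.coeff i) (K : Type)
    [Field K] [CharZero K] : CurvePoint h K ↔ Pool.Agent.Q51.EL.CurvePt f D K := by
  have hlK : (l : K) ≠ 0 := by exact_mod_cast hl
  have hDK : (D : K) ≠ 0 := by exact_mod_cast hD
  have hsum : ∀ x w : K, ∑ i ∈ Finset.range (h.natDegree + 1),
      (h.coeff i : K) * x ^ i * w ^ (h.natDegree - i) =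
      (l : K) ^ 2 * (D : K) * Pool.Agent.Q51.EL.hom f x w := by
    intro x w
    rw [Pool.Agent.Q51.EL.hom, Finset.mul_sum, hdeg]
    refine Finset.sum_congr rfl fun i _ => ?_
    rw [hh i]
    push_cast
    ring
  constructor
  · rintro ⟨x, w, y, hxw, hy⟩
    refine ⟨x, w, y / ((l : K) * D), hxw, ?_⟩
    rw [hsum] at hy
    rw [div_pow, hy]
    field_simp
  · rintro ⟨x, w, y, hxw, hy⟩
    refine ⟨x, w, (l : K) * D * y, hxw, ?_⟩
    rw [hsum, ← hy]
    ring

/-- **The curves over `ℚ` of genus `n/2 - 1 ≥ 2` which are everywhere locally soluble and have no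
sections are dense.**  Let `n ≥ 6` be even, `S` a finite set of primes, and let `g₀ ∈ ℝ[x]` and
`g_p ∈ ℚ_p[x]`, `p ∈ S`, be polynomials of degree at most `n` such that the curves `y² = g₀(x)`,
`y² = g_p(x)` have points over `ℝ` and `ℚ_p`.  Then for every `ε > 0` there is an irreducible
`f ∈ ℚ[x]` of degree `n`, with all coefficients at distance less than `ε` from those of `g₀` and
`g_p`, `p ∈ S`, such that the curve `C : y² = f(x)` has points over `ℝ` and all `ℚ_p`, but no rational
point, and neither the fundamental group of `C` nor that of an open subcurve of `C` or of a curve over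
`ℚ` which dominates `C` has a section. -/
theorem result (n : ℕ) (hn : Even n) (h6 : 6 ≤ n) (S : Finset ℕ) (g₀ : ℝ[X])
    (g : ∀ (p : ℕ) [Fact p.Prime], ℚ_[p][X]) (hd₀ : g₀.natDegree ≤ n)
    (hd : ∀ (p : ℕ) [Fact p.Prime], p ∈ S → (g p).natDegree ≤ n) (h₀ : HasPoint g₀)
    (h : ∀ (p : ℕ) [Fact p.Prime], p ∈ S → HasPoint (g p)) (ε : ℝ) (hε : 0 < ε) :
    ∃ f : ℚ[X], Irreducible f ∧ f.natDegree = n ∧
      (∀ i, ‖(f.coeff i : ℝ) - g₀.coeff i‖ < ε) ∧
      (∀ (p : ℕ) [Fact p.Prime], p ∈ S → ∀ i, ‖(f.coeff i : ℚ_[p]) - (g p).coeff i‖ < ε) ∧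
      LocallySoluble f ∧ ¬ CurvePoint f ℚ ∧ NoSection.{v, w} f := by
  classical
  obtain ⟨f, D, l, hirr, hdeg, hl, hD, hels, hbad, hc0, hcp⟩ :=
    Pool.Agent.Helper47.WA.core.{v, w} n hn h6 (S.filter Nat.Prime)
      (fun p hp => (Finset.mem_filter.1 hp).2) g₀ g hd₀
      (fun p _ hp => hd p (Finset.mem_filter.1 hp).1) h₀
      (fun p _ hp => h p (Finset.mem_filter.1 hp).1) ε hε
  have hlD : (l ^ 2 * D : ℚ) ≠ 0 := mul_ne_zero (pow_ne_zero 2 hl) (by exact_mod_cast hD)
  obtain ⟨k, hk⟩ : ∃ k : ℚ[X], k = C (l ^ 2 * D : ℚ) * f.map (Int.castRingHom ℚ) := ⟨_, rfl⟩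
  have hcoef : ∀ i, k.coeff i = l ^ 2 * D * f.coeff i := by
    intro i
    rw [hk, coeff_C_mul, coeff_map]
    rfl
  have hkdeg' : k.natDegree = f.natDegree := by
    rw [hk, natDegree_C_mul hlD]
    exact natDegree_map_eq_of_injective (Int.castRingHom ℚ).injective_int f
  have hkdeg : k.natDegree = n := by rw [hkdeg', hdeg]
  refine ⟨k, ?_, hkdeg, ?_, ?_, ?_, ?_, ?_⟩
  · rw [hk]
    exact (irreducible_isUnit_mul (isUnit_C.2 (IsUnit.mk0 _ hlD))).2 hirr
  · intro i
    by_cases hi : i ≤ n
    · rw [hcoef, Real.norm_eq_abs]
      exact hc0 i hi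
    · rw [coeff_eq_zero_of_natDegree_lt (by omega), coeff_eq_zero_of_natDegree_lt (by omega)]
      simpa using hε
  · intro p hp hpS i
    by_cases hi : i ≤ n
    · rw [hcoef]
      exact hcp p (Finset.mem_filter.2 ⟨hpS, hp.out⟩) i hi
    · have hdp := hd p hpS
      rw [coeff_eq_zero_of_natDegree_lt (by omega), coeff_eq_zero_of_natDegree_lt (by omega)]
      simpa using hε
  · exact ⟨(curvePoint_iff hl hD hkdeg' hcoef ℝ).2 hels.1,
      fun p _ => (curvePoint_iff hl hD hkdeg' hcoef ℚ_[p]).2 (hels.2 p)⟩
  · intro h1
    exact hbad (Or.inl ((curvePoint_iff hl hD hkdeg' hcoef ℚ).1 h1))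
  · intro F Ω _ _ _ _ _ _ hcl x y U hxy hU
    refine ⟨fun G => hbad (Or.inr ?_)⟩
    obtain ⟨G'⟩ := toSection G
    have : CharZero F := algebraRat.charZero F
    have hlF : (algebraMap ℚ F l) ≠ 0 := by
      rw [Ne, map_eq_zero]; exact hl
    have hDF : (D : F) ≠ 0 := by exact_mod_cast hD
    refine ⟨F, Ω, inferInstance, inferInstance, inferInstance, inferInstance, inferInstance,
      inferInstance, IsAlgClosure.isAlgClosed F, IsAlgClosure.isAlgebraic, U, x,
      y / (algebraMap ℚ F l * D), hU, ⟨G'⟩, ?_⟩
    have h2 : aeval x k = (algebraMap ℚ F l) ^ 2 * D * aeval x f := by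
      rw [hk, map_mul, aeval_C, map_mul, map_pow]
      congr 1
      · rw [map_intCast]
      · rw [aeval_def, aeval_def, eval₂_map]
        congr 1
        exact RingHom.ext_int _ _
    rw [div_pow, hxy, h2]
    field_simp

end Pool.Agent.Results.MP_c1dca2_ag.AdelicDensity
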