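import Mathlib
import Pool.Agent.Helper47.DG.Core

/-!
# Diagonal curves which violate the Hasse principle and satisfy the section conjecture over all
# number fields of degree prime to `q` are adelically dense

Let `n` be odd, `1 < m`, `m ∣ n`.  The curve `C = C_(a,b,c) : c y ^ m = a x ^ n + b w ^ n` is a smooth
curve in the weighted projective plane of weights `(1, 1, n/m)` (for `m = n` a diagonal plane curve, a
twist of a Fermat curve).  Its genus is at least 2 unless `n = m = 3`.

**Theorem.**  Let `S` be a finite set of primes and let `(a_∞, b_∞, c_∞) ∈ ℝ³` and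
`(a_p, b_p, c_p) ∈ ℚ_p³`, `p ∈ S`, be ARBITRARY triples of nonzero numbers such that `C_(a_p,b_p,c_p)` has
a point over `ℚ_p` for `p ∈ S`.  Then for every `ε > 0` there are nonzero rational numbers `a, b, c`,
which are ε-close to `(a_v, b_v, c_v)` for all `v ∈ S ∪ {∞}`, such that `C = C_(a,b,c)` has points over `ℝ`
and over `ℚ_p` for all prime numbers `p`, whereas for all prime factors `q` of `m` and ALL number fields
`K` of a degree not divisible by `q`

* `C(K)` is empty (so all closed points of `C` have a degree divisible by `q`);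
* the fundamental groups over `K` of `C_K`, of its open subcurves and of all smooth curves over `K` which
  dominate it have no sections over `G_K`;
* the geometrically pro-`q` fundamental group over `K` of the curve `c y ^ q = a x ^ q + b` has no section.

So in the space of all diagonal curves with local points the curves over `ℚ` which have points
everywhere locally, and for which the section conjecture is true over all these fields at the same
time because there are no sections, satisfy weak approximation.

The fundamental group is described through valuations.  Let `U` be a smooth geometrically connected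
curve over `K` with function field `F`, let `Ω` be an algebraic closure of `F`, and let `F_U` be the
maximal extension of `F` inside `Ω` which is unramified over the closed points of `U`, that is, over
their local rings, which are valuation rings of `F`.  Then `π₁(U) = Gal(F_U/F)`, and the map
`π₁(U) → G_K` is the restriction of automorphisms to the algebraic closure of `K` in `Ω`.

Proof.  The library has for `A, B ∈ ℤ` with `A X ^ n + B` irreducible an upper bound, from the large sieve,
for the number of the squarefree `D`, `|D| ≤ X`, such that `D y ^ m = A x ^ n + B w ^ n` is everywhere locally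
soluble, but has a section over some number field of a degree prime to `q`, and the analogous bound for
points.  The problem is that these results concern the twists of ONE curve.  By weak approximation there
are rational `α, r, x₀, w₀, y₀` near the given local data; put `β = (r y₀ ^ m - α x₀ ^ n) / w₀ ^ n`, which is
then near `b_v`; with an auxiliary prime `α X ^ n + β` is made irreducible by Eisenstein's criterion.  After
division by `r` and multiplication by an `n`-th power the curve `r y ^ m = α x ^ n + β w ^ n` has the form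
`y ^ m = A x ^ n + B w ^ n` with integers `A, B`, and it has a rational point.  Then the twists by the integers
`k ≡ 1` modulo a suitable multiple `W` of `m ^ 3 ∏_{p ∈ S} p`, composed of primes modulo which
`A X ^ n + B` has a zero, are everywhere locally soluble, and these are more than the exceptions.  Since `k`
is an `m`-th power in `ℝ` and in `ℚ_p` for `p ∈ S`, there is a rational number `t` such that `k t ^ m` is close
to `1` at all `v ∈ S ∪ {∞}`; finally `(a, b, c) = (α, β, k t ^ m r)`.
-/

set_option autoImplicit false

open Polynomial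

namespace Pool.Agent.Results.MP_c1dca2_ag.DiagonalCurvesDense

/-- The curve `c y ^ m = a x ^ n + b w ^ n` (in the weighted projective plane of weights `(1, 1, n/m)`)
has a point over the field `K`. -/
def HasPoint {K : Type} [Field K] (a b c : K) (n m : ℕ) : Prop :=
  ∃ x w y : K, (x ≠ 0 ∨ w ≠ 0) ∧ c * y ^ m = a * x ^ n + b * w ^ n

/-- The curve `c y ^ m = a x ^ n + b w ^ n` over `ℚ` has points over `ℝ` and over all `ℚ_p`. -/
def LocallySoluble (a b c : ℚ) (n m : ℕ) : Prop :=
  HasPoint (a : ℝ) (b : ℝ) (c : ℝ) n m ∧
    ∀ (p : ℕ) [Fact p.Prime], HasPoint (a : ℚ_[p]) (b : ℚ_[p]) (c : ℚ_[p]) n m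

section definitions

variable (ℓ : ℕ) (k F Ω : Type) [Field k] [Field F] [Field Ω] [Algebra k F] [Algebra F Ω]
  [Algebra k Ω]

/-- The inertia group of the valuation ring `W` of `Ω`, as a subgroup of `Gal(Ω/F)`: the
automorphisms of `Ω` over `F` that map `W` onto itself and act as the identity on its residue
field. -/
noncomputable def inertia (W : ValuationSubring Ω) : Subgroup (Ω ≃ₐ[F] Ω) :=
  (W.inertiaSubgroup F).map (W.decompositionSubgroup F).subtype

/-- `F_U`, for a set `U` of valuation rings of `F`: the elements of `Ω` fixed by the inertia groups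
of all valuation rings `W` of `Ω` with `W ∩ F ∈ U`.  If `Ω` is an algebraic closure of a field `F`
of characteristic zero, this is the maximal extension of `F` in `Ω` unramified over `U`. -/
noncomputable def unramified (U : Set (ValuationSubring F)) : IntermediateField F Ω :=
  ⨅ W : {W : ValuationSubring Ω // W.comap (algebraMap F Ω) ∈ U},
    IntermediateField.fixedField (inertia F Ω W.1)

/-- `k̄ F`, the compositum of `F` and of the algebraic closure of `k` in `Ω`. -/
noncomputable def geomField : IntermediateField F Ω :=
  IntermediateField.adjoin F (algebraicClosure k Ω : Set Ω)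

/-- The algebraic extension `L` of `K` in `Ω` is unramified at all valuation rings of `Ω` that
contain `k`: every nonzero element of `L` has the same valuation as an element of `K`.  (If `K` is
a function field of one variable over the algebraic closure of `k` and `k` has characteristic zero,
then this says that `L/K` is unramified over all points of the smooth projective curve.) -/
def Unramified {k K Ω : Type} [Field k] [Field K] [Field Ω] [Algebra k Ω] [Algebra K Ω]
    (L : IntermediateField K Ω) : Prop :=
  ∀ W : ValuationSubring Ω, (∀ c : k, algebraMap k Ω c ∈ W) → ∀ z ∈ L, z ≠ 0 →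
    ∃ t : K, t ≠ 0 ∧ z / algebraMap K Ω t ∈ W ∧ (z / algebraMap K Ω t)⁻¹ ∈ W

/-- `L/K` is a finite Galois extension whose degree is a power of `ℓ`. -/
def FiniteProEll (ℓ : ℕ) {K Ω : Type} [Field K] [Field Ω] [Algebra K Ω]
    (L : IntermediateField K Ω) : Prop :=
  FiniteDimensional K L ∧ IsGalois K L ∧ ∃ m : ℕ, Module.finrank K L = ℓ ^ m

/-- The maximal unramified pro-`ℓ` extension of `K` in `Ω`: the compositum of the finite Galois
extensions of `K` whose degree is a power of `ℓ` and which are unramified. -/
noncomputable def maxProEll (ℓ : ℕ) (k K Ω : Type) [Field k] [Field K] [Field Ω] [Algebra k Ω]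
    [Algebra K Ω] : IntermediateField K Ω :=
  ⨆ L : {L : IntermediateField K Ω // FiniteProEll ℓ L ∧ Unramified (k := k) L}, L.1

/-- `M`, the maximal unramified pro-`ℓ` extension of `k̄ F` in `Ω`, as an extension of `F`. -/
noncomputable def proEllField : IntermediateField F Ω :=
  (maxProEll ℓ k (geomField k F Ω) Ω).restrictScalars F

/-- The map `τ : M → M` acts as `σ : K → K` on the elements that the fields `K` and `M` have in
common when they are regarded as subfields of `Ω` through `i` and `j`. -/
def ActsAs {K M Ω : Type} [Field K] [Field M] [Field Ω] (i : K →+* Ω) (j : M →+* Ω) (σ : K → K)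
    (τ : M → M) : Prop :=
  ∀ c z, j z = i c → j (τ z) = i (σ c)

/-- Let `k ⊆ K ⊆ Ω` and `F ⊆ N ⊆ Ω` be fields.  A splitting of `Gal(N/F) → Gal(K/k)`: a continuous
homomorphism `s` from `Gal(K/k)` to `Gal(N/F)` such that `s(σ)` acts as `σ` on the elements of
`K ∩ N`. -/
structure Splitting (K N : Type) [Field K] [Field N] [Algebra k K] [Algebra F N] [Algebra K Ω]
    [Algebra N Ω] where
  /-- the homomorphism `Gal(K/k) → Gal(N/F)` -/
  toHom : (K ≃ₐ[k] K) →* (N ≃ₐ[F] N)
  cont : Continuous toHom
  compat : ∀ σ : K ≃ₐ[k] K, ActsAs (algebraMap K Ω) (algebraMap N Ω) σ (toHom σ)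

/-- There are no sections of `Gal(N/F) → G_k`, where `G_k = Gal(k̄/k)` and `k̄` is the algebraic
closure of `k` in `Ω`.  For `N = F_U` these are the sections of `π₁(U) → G_k`. -/
def NoSplitting (N : IntermediateField F Ω) : Prop :=
  IsEmpty (Splitting k F Ω (algebraicClosure k Ω) N)

end definitions

section curves

/-- Let `F` be any field over `K` that contains a point `(x, y)` of the affine curve
`c y ^ m = a x ^ n + b`, for instance the function field of `C_K` or of a curve over `K` that dominates
it, and let `Ω` be an algebraic closure of `F`.  Then for every set `U` of valuation rings of `F` over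
`K` there is no section of `π₁(U) → G_K`.  If `F` is the function field of a curve, such `U` are given by
its smooth projective model and by all open subcurves. -/
def NoSection (a b c : ℚ) (n m : ℕ) (K : Type) [Field K] : Prop :=
  ∀ (F Ω : Type) [Field F] [Field Ω] [Algebra K F] [Algebra F Ω] [Algebra K Ω]
    [IsScalarTower K F Ω] [IsAlgClosure F Ω] (x y : F) (U : Set (ValuationSubring F)),
    (c : F) * y ^ m = a * x ^ n + b → (∀ O ∈ U, ∀ z : K, algebraMap K F z ∈ O) →
      NoSplitting K F Ω (unramified F Ω U)

/-- Let `F = K(x, y)` be the function field over `K` of the curve `c y ^ q = a x ^ q + b`, let `Ω` be an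
algebraic closure of `F`, and let `M` be the maximal unramified pro-`q` extension of `K̄ F`.  For all
extensions `N ⊇ M` of `F` in `Ω`, in particular for `N = M`, there is no section of `Gal(N/F) → G_K`. -/
def NoProEllSection (a b c : ℚ) (q : ℕ) (K : Type) [Field K] : Prop :=
  ∀ (F Ω : Type) [Field F] [Field Ω] [Algebra K F] [Algebra F Ω] [Algebra K Ω]
    [IsScalarTower K F Ω] [IsAlgClosure F Ω] (x y : F), Transcendental K x →
    (c : F) * y ^ q = a * x ^ q + b →
    IntermediateField.adjoin K {x, y} = (⊤ : IntermediateField K F) →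
    ∀ N : IntermediateField F Ω, proEllField q K F Ω ≤ N → NoSplitting K F Ω N

/-- Over `K` there are no points and no sections: the curve `C : c y ^ m = a x ^ n + b w ^ n` has no point
over `K`, there are no sections of the fundamental groups over `K` of open subcurves of `C` and of the
smooth curves over `K` that dominate it, and the geometrically pro-`q` fundamental group over `K` of the
curve `c y ^ q = a x ^ q + b` has no section. -/
def NothingOver (a b c : ℚ) (n m q : ℕ) (K : Type) [Field K] : Prop :=
  ¬ HasPoint (a : K) (b : K) (c : K) n m ∧ NoSection a b c n m K ∧ NoProEllSection a b c q K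

end curves

section proofs

variable {A B : ℤ} {k : ℕ} {N t : ℚ} {n m : ℕ}

lemma eq_iff (hN : N ≠ 0) {F : Type} [Field F] [CharZero F] (x w y : F) (n' m' : ℕ) (t' : ℚ)
    (ht' : t' ^ m' = t ^ m) :
    ((k * t ^ m / N : ℚ) : F) * y ^ m' = ((A / N : ℚ) : F) * x ^ n' + ((B / N : ℚ) : F) * w ^ n' ↔
      (k : F) * ((t' : F) * y) ^ m' = A * x ^ n' + B * w ^ n' := by
  have hNF : (N : F) ≠ 0 := by exact_mod_cast hN
  have h1 : ((t' : F)) ^ m' = (t : F) ^ m := by exact_mod_cast congrArg (fun z : ℚ => (z : F)) ht'
  rw [mul_pow, h1]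
  push_cast
  constructor
  · intro h
    have h2 : (k : F) * ((t : F) ^ m * y ^ m') = N * ((k : F) * (t : F) ^ m / N * y ^ m') := by
      field_simp
    rw [h2, h]
    field_simp
  · intro h
    have h2 : (k : F) * (t : F) ^ m / N * y ^ m' = (k : F) * ((t : F) ^ m * y ^ m') / N := by
      ring
    rw [h2, h]
    ring

lemma point_iff (hN : N ≠ 0) (ht : t ≠ 0) (K : Type) [Field K] [CharZero K] :
    HasPoint ((A / N : ℚ) : K) ((B / N : ℚ) : K) ((k * t ^ m / N : ℚ) : K) n m ↔
      Nonempty (Pool.Agent.Q51.ZC.CPoint A B n m k K) := by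
  have htK : (t : K) ≠ 0 := by exact_mod_cast ht
  constructor
  · rintro ⟨x, w, y, hxw, hy⟩
    have h1 := (eq_iff (t := t) (m := m) hN x w y n m t rfl).1 hy
    exact ⟨⟨x, w, t * y, hxw, by push_cast; exact h1⟩⟩
  · rintro ⟨⟨x, w, y, hxw, hy⟩⟩
    refine ⟨x, w, y / t, hxw, (eq_iff (t := t) (m := m) hN x w (y / t) n m t rfl).2 ?_⟩
    rw [mul_div_cancel₀ _ htK]
    push_cast at hy
    exact hy

lemma nothing {q : ℕ} (hqm : q ∣ m) (hN : N ≠ 0) (ht : t ≠ 0) {K : Type} [Field K] [CharZero K]
    (h1 : ¬ Nonempty (Pool.Agent.Q51.ZC.CPoint A B n m k K))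
    (h2 : ¬ Pool.Agent.Q51.SZ.HasSec A B n m k K)
    (h3 : ¬ Pool.Agent.Q51.SZ.HasPro A B q k K) :
    NothingOver (A / N) (B / N) (k * t ^ m / N) n m q K := by
  refine ⟨fun h => h1 ((point_iff hN ht K).1 h), ?_, ?_⟩
  · intro F Ω _ _ _ _ _ _ _ x y U hxy hU
    have hcl : IsAlgClosed Ω := IsAlgClosure.isAlgClosed F
    have halg : Algebra.IsAlgebraic F Ω := IsAlgClosure.isAlgebraic
    have hch : CharZero F := charZero_of_injective_algebraMap (algebraMap K F).injective
    have h4 : (k : F) * ((t : F) * y) ^ m = A * x ^ n + B := by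
      have := (eq_iff (t := t) (m := m) hN x 1 y n m t rfl).1 (by rw [one_pow, mul_one]; exact hxy)
      rwa [one_pow, mul_one] at this
    exact ⟨fun s => h2 ⟨F, Ω, inferInstance, inferInstance, inferInstance, inferInstance,
      inferInstance, inferInstance, hcl, halg, U, x, t * y, hU, by push_cast; exact h4,
      ⟨⟨s.toHom, s.cont, s.compat⟩⟩⟩⟩
  · intro F Ω _ _ _ _ _ _ _ x y hx hxy hF E hE
    have hcl : IsAlgClosed Ω := IsAlgClosure.isAlgClosed F
    have halg : Algebra.IsAlgebraic F Ω := IsAlgClosure.isAlgebraic
    have hch : CharZero F := charZero_of_injective_algebraMap (algebraMap K F).injective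
    obtain ⟨e, he⟩ := hqm
    have hte : (t ^ e : ℚ) ^ q = t ^ m := by rw [← pow_mul, mul_comm e q, ← he]
    have h4 : (k : F) * (((t ^ e : ℚ) : F) * y) ^ q = A * x ^ q + B := by
      have := (eq_iff (t := t) (m := m) hN x 1 y q q (t ^ e) hte).1
        (by rw [one_pow, mul_one]; exact hxy)
      rwa [one_pow, mul_one] at this
    have hte0 : ((t ^ e : ℚ) : F) ≠ 0 := by exact_mod_cast pow_ne_zero e ht
    have hmap : algebraMap K F ((t ^ e : ℚ) : K) = ((t ^ e : ℚ) : F) := by
      rw [map_ratCast]
    have hgen : IntermediateField.adjoin K {x, ((t ^ e : ℚ) : F) * y} =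
        (⊤ : IntermediateField K F) := by
      rw [← hF]
      apply le_antisymm
      · rw [IntermediateField.adjoin_le_iff]
        rintro z (rfl | rfl)
        · exact IntermediateField.subset_adjoin K _ (Or.inl rfl)
        · refine mul_mem ?_ (IntermediateField.subset_adjoin K _ (Or.inr rfl))
          rw [← hmap]
          exact IntermediateField.algebraMap_mem _ _
      · rw [IntermediateField.adjoin_le_iff]
        rintro z (rfl | rfl)
        · exact IntermediateField.subset_adjoin K _ (Or.inl rfl)
        · have h6 : ((t ^ e : ℚ) : F) ∈ IntermediateField.adjoin K {x, ((t ^ e : ℚ) : F) * z} := by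
            rw [← hmap]
            exact IntermediateField.algebraMap_mem _ _
          have h7 := mul_mem (inv_mem h6) (IntermediateField.subset_adjoin K
            {x, ((t ^ e : ℚ) : F) * z} (Or.inr rfl))
          rwa [inv_mul_cancel_left₀ hte0] at h7
    have hE' : Pool.Agent.Y157.PS.geomPro q K F Ω ≤ E := by
      have h6 := Pool.Agent.Results.MP_2f3286_ag.FermatTwistsOverAllFields.proEll_eq q K F Ω
      rw [← h6]
      exact hE
    exact ⟨fun s => h3 ⟨F, Ω, inferInstance, inferInstance, inferInstance, inferInstance,
      inferInstance, inferInstance, hcl, halg, x, ((t ^ e : ℚ) : F) * y, E, s.toHom, hx,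
      by push_cast at h4 ⊢; exact h4, hgen, hE', s.cont, s.compat⟩⟩

end proofs

/-- **The diagonal curves which are everywhere locally soluble and have no sections over any number
field of a degree prime to `q` are dense.**  Let `n` be odd, `1 < m`, `m ∣ n`, let `S` be a finite set of
primes, and let `a₀, b₀, c₀ ∈ ℝ` and `a_p, b_p, c_p ∈ ℚ_p`, `p ∈ S`, be nonzero such that the curves
`c_p y ^ m = a_p x ^ n + b_p w ^ n` have points over `ℚ_p`.  Then for every `ε > 0` there are nonzero
rational numbers `a, b, c` at distance less than `ε` from `a₀, b₀, c₀` and from `a_p, b_p, c_p` for all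
`p ∈ S`, such that the curve `C : c y ^ m = a x ^ n + b w ^ n` has points over `ℝ` and all `ℚ_p`, but for
all prime factors `q` of `m` and all number fields `K` with `q ∤ [K : ℚ]` the curve `C` has no point over
`K`, the fundamental groups over `K` of `C`, of its open subcurves and of all smooth curves over `K` that
dominate it have no sections, and the geometrically pro-`q` fundamental group over `K` of the curve
`c y ^ q = a x ^ q + b` has no section. -/
theorem result (n m : ℕ) (hn : Odd n) (hm : 1 < m) (hmn : m ∣ n) (S : Finset ℕ)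
    (a₀ b₀ c₀ : ℝ) (h₀ : a₀ ≠ 0 ∧ b₀ ≠ 0 ∧ c₀ ≠ 0)
    (a b c : ∀ (p : ℕ) [Fact p.Prime], ℚ_[p])
    (h : ∀ (p : ℕ) [Fact p.Prime], p ∈ S →
      (a p ≠ 0 ∧ b p ≠ 0 ∧ c p ≠ 0) ∧ HasPoint (a p) (b p) (c p) n m)
    (ε : ℝ) (hε : 0 < ε) :
    ∃ α β γ : ℚ, α ≠ 0 ∧ β ≠ 0 ∧ γ ≠ 0 ∧
      (|α - a₀| < ε ∧ |β - b₀| < ε ∧ |γ - c₀| < ε) ∧
      (∀ (p : ℕ) [Fact p.Prime], p ∈ S →
        ‖(α : ℚ_[p]) - a p‖ < ε ∧ ‖(β : ℚ_[p]) - b p‖ < ε ∧ ‖(γ : ℚ_[p]) - c p‖ < ε) ∧
      LocallySoluble α β γ n m ∧
      ∀ q : ℕ, q.Prime → q ∣ m → ∀ (K : Type) [Field K] [NumberField K],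
        ¬ q ∣ Module.finrank ℚ K → NothingOver α β γ n m q K := by
  classical
  obtain ⟨A, B, k, N, t, hA, hB, hk, hN, ht, hsol, hbad, hr, hp⟩ :=
    Pool.Agent.Helper47.DG.core n m hn hm hmn (S.filter Nat.Prime)
      (fun p hp => (Finset.mem_filter.1 hp).2) a₀ b₀ c₀ h₀.1 h₀.2.2 a b c
      (fun p _ hp => ⟨(h p (Finset.mem_filter.1 hp).1).1.1, (h p (Finset.mem_filter.1 hp).1).1.2.2⟩)
      (fun p _ hp => (h p (Finset.mem_filter.1 hp).1).2) ε hε
  have hAq : (A : ℚ) ≠ 0 := by exact_mod_cast hA
  have hBq : (B : ℚ) ≠ 0 := by exact_mod_cast hB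
  have hkq : (k : ℚ) ≠ 0 := by exact_mod_cast hk.ne'
  refine ⟨A / N, B / N, k * t ^ m / N, div_ne_zero hAq hN, div_ne_zero hBq hN,
    div_ne_zero (mul_ne_zero hkq (pow_ne_zero _ ht)) hN, hr,
    fun p hp' hpS => hp p (Finset.mem_filter.2 ⟨hpS, hp'.out⟩),
    ⟨(point_iff hN ht ℝ).2 hsol.1, fun p hp' => (point_iff hN ht ℚ_[p]).2 (hsol.2 ⟨p, hp'.out⟩)⟩,
    ?_⟩
  intro q hq hqm K _ _ hK
  have hno : ∀ P : Prop, (P → Pool.Agent.Q51.SZ.HasAny A B n m k q) → ¬ P := fun P hP hP' =>
    hbad ⟨hsol, q, hq, hqm, hP hP'⟩
  refine nothing hqm hN ht (hno _ fun h1 => ?_) (hno _ fun h2 => ?_) (hno _ fun h3 => ?_)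
  · exact ⟨K, inferInstance, inferInstance, hK, Or.inl h1⟩
  · exact ⟨K, inferInstance, inferInstance, hK, Or.inr (Or.inl h2)⟩
  · exact ⟨K, inferInstance, inferInstance, hK, Or.inr (Or.inr h3)⟩

end Pool.Agent.Results.MP_c1dca2_ag.DiagonalCurvesDense
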