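import Mathlib
import Pool.Agent.Helper47.DM.Pts

/-!
# Everywhere locally soluble curves are dominated by everywhere locally soluble curves without sections

Let `X : y² = h(x)` be a hyperelliptic curve over `ℚ` (or a curve of genus `0` or `1` of this form),
`h ∈ ℚ[x]` squarefree of even degree, with points over `ℝ` and over all `ℚ_p`.  Then there are six
integers `e_1, .., e_6`, with `h(e_k) ≠ 0`, such that the double covers

  `Y_D → X`, `Y_D : y² = h(x), D w² = (x - e_1) ⋯ (x - e_6)`, `D` a squarefree integer,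

(smooth projective curves of genus `2 g + 5`, `g` the genus of `X`) have the following properties.

* At least `c T / (log T)^(1/8)` of the `Y_D`, `|D| ≤ T`, are everywhere locally soluble; moreover
  they have points over `ℝ` and `ℚ_p`, `p ∈ S`, as close as one likes to arbitrary given local points of
  `X`, `S` any finite set of primes.
* At most `C T / (log T)^(1/5)` of the `Y_D`, `|D| ≤ T`, have a rational point, or have a section of the
  fundamental group (of `Y_D`, of an open subcurve of `Y_D`, or of a smooth curve over `ℚ` which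
  dominates `Y_D`).

So the section conjecture holds for `100%` of the everywhere locally soluble `Y_D`: they have neither
rational points nor sections (and violate the Hasse principle).  In particular every everywhere
locally soluble hyperelliptic curve `X` over `ℚ` is dominated by infinitely many curves for which this
is the case, and the images of their adelic points are dense in the space of the adelic points of `X`.
Every hyperelliptic curve over `ℚ` has an equation `y² = h(x)` with `deg h` even.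

The fundamental group is described through valuations.  Let `U` be a smooth geometrically connected
curve over `k` with function field `F`, let `Ω` be an algebraic closure of `F`, and let `F_U` be the
maximal extension of `F` inside `Ω` which is unramified over the closed points of `U`, that is, over
their local rings, which are valuation rings of `F`.  Then `π₁(U) = Gal(F_U/F)`, and the map
`π₁(U) → G_k` is the restriction of automorphisms to the algebraic closure of `k` in `Ω`.

Proof.  The `e_k` are chosen in arithmetic progression such that the `h(e_k)` are independent modulo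
squares.  For all `D` outside of a set with `O(T (log T)^(-1/5))` elements up to `T` every rational
point or section of `C_D : D w² = ∏ (x - e_k)` is attached to one of the branch points `e_k` (library,
`SECLOC2`, `fin2`, `fins_all`).  A section of `Y_D` maps to such a section of `C_D`, and the local
theory of sections, applied to the curve `D v² = h(x) ∏ (x - e_k)` at the primes `p ∣ D`, shows that
`h(e_k)` is a square modulo all prime factors `p` of `D` outside of a finite set.  Only
`O(T (log T)^(-1/2))` numbers `D` up to `T` have this property.  On the other hand `Y_D` is everywhere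
locally soluble if `D` has the right square class at the bad primes and some `h(e_k)` is a square
modulo `p`, for every other prime factor `p` of `D`; the density of the primes `p` for which no `h(e_k)`
is a square modulo `p` is at most `1/32`.
-/

set_option autoImplicit false

open Polynomial

namespace Pool.Agent.Results.MP_c1dca2_ag.DoubleCovers

universe u v w

/-- The binary form `∑ a_i x^i z^(n-i)` of degree `n = deg h` belonging to `h = ∑ a_i x^i ∈ ℚ[x]`. -/
def form (h : ℚ[X]) {K : Type} [Field K] [CharZero K] (x z : K) : K :=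
  ∑ i ∈ Finset.range (h.natDegree + 1), (h.coeff i : K) * x ^ i * z ^ (h.natDegree - i)

/-- The projective curve `y² = h(x)` has a point over `K` (`deg h` even). -/
def CurvePoint (h : ℚ[X]) (K : Type) [Field K] [CharZero K] : Prop :=
  ∃ x z y : K, (x ≠ 0 ∨ z ≠ 0) ∧ y ^ 2 = form h x z

/-- The curve `y² = h(x)` is everywhere locally soluble. -/
def LocallySoluble (h : ℚ[X]) : Prop :=
  CurvePoint h ℝ ∧ ∀ (p : ℕ) [Fact p.Prime], CurvePoint h ℚ_[p]

/-- `(x, y)` is a point over `K` of the affine curve `y² = h(x)`. -/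
def OnCurve (h : ℚ[X]) {K : Type} [Field K] [CharZero K] (P : K × K) : Prop :=
  P.2 ^ 2 = aeval P.1 h

/-- The projective curve `Y_D`: `y² = h(x)`, `D w² = ∏ (x - e_k)`, has a point over `K`: in homogeneous
coordinates `(x : z)` for `x` the equations are `y² = h(x, z)`, `D w² = ∏ (x - e_k z)`. -/
def CoverPoint (h : ℚ[X]) (e : Fin 6 → ℤ) (D : ℤ) (K : Type) [Field K] [CharZero K] : Prop :=
  ∃ x z y w : K, (x ≠ 0 ∨ z ≠ 0) ∧ y ^ 2 = form h x z ∧
    (D : K) * w ^ 2 = ∏ k, (x - (e k : K) * z)

/-- The curve `Y_D` is everywhere locally soluble. -/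
def CoverLocallySoluble (h : ℚ[X]) (e : Fin 6 → ℤ) (D : ℤ) : Prop :=
  CoverPoint h e D ℝ ∧ ∀ (p : ℕ) [Fact p.Prime], CoverPoint h e D ℚ_[p]

/-- The curve `Y_D` has a point over `K` whose image `(x, y)` on `X` is at distance less than `ε` from the
point `P`. -/
def CoverPointNear (h : ℚ[X]) (e : Fin 6 → ℤ) (D : ℤ) {K : Type} [NormedField K] [CharZero K]
    (P : K × K) (ε : ℝ) : Prop :=
  ∃ x y w : K, ‖x - P.1‖ < ε ∧ ‖y - P.2‖ < ε ∧ y ^ 2 = aeval x h ∧
    (D : K) * w ^ 2 = ∏ k, (x - (e k : K))

section definitions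

variable (k : Type u) (F : Type v) (Ω : Type w) [Field k] [Field F] [Field Ω] [Algebra k F]
  [Algebra F Ω] [Algebra k Ω]

/-- The inertia group of the valuation ring `W` of `Ω`, as a subgroup of `Gal(Ω/F)`: the
automorphisms of `Ω` over `F` that map `W` onto itself and act as the identity on its residue
field. -/
noncomputable def inertia (W : ValuationSubring Ω) : Subgroup (Ω ≃ₐ[F] Ω) :=
  (W.inertiaSubgroup F).map (W.decompositionSubgroup F).subtype

/-- `F_U`, for a set `U` of valuation rings of `F`: the elements of `Ω` fixed by the inertia groups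
of all valuation rings `W` of `Ω` with `W ∩ F ∈ U`.  If `Ω` is an algebraic closure of a field `F`
of characteristic zero, this is the maximal extension of `F` in `Ω` unramified over `U`. -/
noncomputable def unramified (U : Set (ValuationSubring F)) : IntermediateField F Ω :=
  ⨅ W : {W : ValuationSubring Ω // W.comap (algebraMap F Ω) ∈ U},
    IntermediateField.fixedField (inertia F Ω W.1)

/-- The map `τ : M → M` acts as `σ : K → K` on the elements that the fields `K` and `M` have in
common when they are regarded as subfields of `Ω` through `i` and `j`. -/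
def ActsAs {K M Ω : Type*} [Field K] [Field M] [Field Ω] (i : K →+* Ω) (j : M →+* Ω) (σ : K → K)
    (τ : M → M) : Prop :=
  ∀ c z, j z = i c → j (τ z) = i (σ c)

/-- Let `k ⊆ K ⊆ Ω` and `F ⊆ M ⊆ Ω` be fields.  A splitting of `Gal(M/F) → Gal(K/k)`: a continuous
homomorphism `s` from `Gal(K/k)` to `Gal(M/F)` such that `s(σ)` acts as `σ` on the elements of
`K ∩ M`. -/
structure Splitting (K M : Type*) [Field K] [Field M] [Algebra k K] [Algebra F M] [Algebra K Ω]
    [Algebra M Ω] where
  /-- the homomorphism `Gal(K/k) → Gal(M/F)` -/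
  toHom : (K ≃ₐ[k] K) →* (M ≃ₐ[F] M)
  cont : Continuous toHom
  compat : ∀ σ : K ≃ₐ[k] K, ActsAs (algebraMap K Ω) (algebraMap M Ω) σ (toHom σ)

/-- The sections of `π₁(U) = Gal(F_U/F) → G_k`: the continuous homomorphisms `s` from
`G_k = Gal(k̄/k)` to `Gal(F_U/F)`, where `k̄` is the algebraic closure of `k` in `Ω`, such that
`s(σ)` acts as `σ` on the elements of `k̄`. -/
def GaloisSection (U : Set (ValuationSubring F)) : Type w :=
  Splitting k F Ω (algebraicClosure k Ω) (unramified F Ω U)

end definitions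

/-- Let `F` be any field over `ℚ` that contains a point `(x, y, w)` of the curve `Y_D` with `x`
transcendental over `ℚ`, for instance the function field of `Y_D` or of a curve that dominates it, and
let `Ω` be an algebraic closure of `F`.  Then for every set `U` of valuation rings of `F` over `ℚ` there
is no section of `π₁(U) → G_ℚ`.  If `F` is the function field of a curve over `ℚ`, such `U` are given by
its smooth projective model and by all open subcurves of it. -/
def NoSection (h : ℚ[X]) (e : Fin 6 → ℤ) (D : ℤ) : Prop :=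
  ∀ (F : Type v) (Ω : Type w) [Field F] [Field Ω] [Algebra ℚ F] [Algebra F Ω] [Algebra ℚ Ω]
    [IsScalarTower ℚ F Ω] [IsAlgClosure F Ω] (x y w : F) (U : Set (ValuationSubring F)),
    Transcendental ℚ x → y ^ 2 = aeval x h → (D : F) * w ^ 2 = ∏ k, (x - (e k : F)) →
    (∀ O ∈ U, ∀ c : ℚ, algebraMap ℚ F c ∈ O) → IsEmpty (GaloisSection ℚ F Ω U)

/-! ### Integral equations -/

section integral

variable {h : ℚ[X]} {g : ℤ[X]} {N : ℤ}

lemma natDegree_eq (hN : N ≠ 0) (hg : g.map (Int.castRingHom ℚ) = C ((N : ℚ) ^ 2) * h) :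
    g.natDegree = h.natDegree := by
  have h1 : (g.map (Int.castRingHom ℚ)).natDegree = g.natDegree :=
    natDegree_map_eq_of_injective (Int.castRingHom ℚ).injective_int g
  have h2 : ((N : ℚ) ^ 2) ≠ 0 := pow_ne_zero 2 (by exact_mod_cast hN)
  rw [← h1, hg, natDegree_C_mul h2]

lemma coeff_eq (hg : g.map (Int.castRingHom ℚ) = C ((N : ℚ) ^ 2) * h) (i : ℕ) :
    (g.coeff i : ℚ) = (N : ℚ) ^ 2 * h.coeff i := by
  have h1 : (g.map (Int.castRingHom ℚ)).coeff i = (C ((N : ℚ) ^ 2) * h).coeff i := by rw [hg]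
  rw [coeff_map, coeff_C_mul] at h1
  exact h1

lemma hom_eq (hN : N ≠ 0) (hg : g.map (Int.castRingHom ℚ) = C ((N : ℚ) ^ 2) * h) {K : Type}
    [Field K] [CharZero K] (x z : K) :
    Pool.Agent.Helper47.DM.hom g x z = (N : K) ^ 2 * form h x z := by
  rw [Pool.Agent.Helper47.DM.hom, form, Finset.mul_sum, natDegree_eq hN hg]
  refine Finset.sum_congr rfl fun i _ => ?_
  have h1 : ((g.coeff i : ℤ) : K) = (N : K) ^ 2 * (h.coeff i : K) := by
    have := congrArg (fun q : ℚ => (q : K)) (coeff_eq hg i)
    push_cast at this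
    exact this
  rw [h1]
  ring

lemma aeval_eq (hg : g.map (Int.castRingHom ℚ) = C ((N : ℚ) ^ 2) * h) {K : Type*}
    [Field K] [Algebra ℚ K] (x : K) : aeval x g = (N : K) ^ 2 * aeval x h := by
  have h1 : aeval x (g.map (Int.castRingHom ℚ)) = aeval x g := by
    rw [aeval_def, aeval_def, eval₂_map]
    congr 1
    exact RingHom.ext_int _ _
  rw [← h1, hg, map_mul, aeval_C]
  simp

end integral

lemma toSection {k : Type u} {F : Type v} {Ω : Type w} [Field k] [Field F] [Field Ω] [Algebra k F]
    [Algebra F Ω] [Algebra k Ω] {U : Set (ValuationSubring F)} (G : GaloisSection k F Ω U) :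
    Nonempty (Pool.Agent.W620.SC.GSection k F Ω U) :=
  ⟨⟨G.toHom, G.cont, G.compat⟩⟩

/-- **Every everywhere locally soluble curve `X : y² = h(x)` over `ℚ` has many everywhere locally
soluble double covers, `100%` of which have neither rational points nor sections.**  Let `h ∈ ℚ[x]` be
squarefree of even degree `> 0`, such that `X` has points over `ℝ` and all `ℚ_p`.  There are six
different integers `e_k` with `h(e_k) ≠ 0` such that for the double covers `Y_D` of `X`, `D` squarefree:

* at most `C T (log T)^(-1/5)` of the `Y_D` with `|D| ≤ T` have a rational point or a section,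
* for all given points `P₀`, `P_p` of `X` over `ℝ` and over `ℚ_p`, `p ∈ S`, and all `ε > 0` at least
  `c T (log T)^(-1/8)` of the `Y_D` with `|D| ≤ T` are everywhere locally soluble and have points over
  `ℝ` and `ℚ_p`, `p ∈ S`, above points of `X` at distance less than `ε` from `P₀` and `P_p`. -/
theorem result (h : ℚ[X]) (hsq : Squarefree h) (hev : Even h.natDegree) (hpos : 0 < h.natDegree)
    (hX : LocallySoluble h) :
    ∃ e : Fin 6 → ℤ, Function.Injective e ∧ (∀ k, h.eval (e k : ℚ) ≠ 0) ∧
      (∃ C : ℝ, ∀ T : ℕ, 3 ≤ T → ({D : ℤ | D.natAbs ≤ T ∧ Squarefree D ∧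
        (CoverPoint h e D ℚ ∨ ¬ NoSection.{v, w} h e D)}.ncard : ℝ) ≤
          C * T * (Real.log T) ^ (-(1 / 5) : ℝ)) ∧
      ∀ (S : Finset ℕ) (P₀ : ℝ × ℝ) (P : ∀ (p : ℕ) [Fact p.Prime], ℚ_[p] × ℚ_[p]), OnCurve h P₀ →
        (∀ (p : ℕ) [Fact p.Prime], p ∈ S → OnCurve h (P p)) → ∀ ε : ℝ, 0 < ε →
        ∃ c : ℝ, 0 < c ∧ ∃ T₀ : ℕ, ∀ T : ℕ, T₀ ≤ T → c * T * (Real.log T) ^ (-(1 / 8) : ℝ) ≤
          ({D : ℤ | D.natAbs ≤ T ∧ Squarefree D ∧ CoverLocallySoluble h e D ∧
            CoverPointNear h e D P₀ ε ∧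
            ∀ (p : ℕ) [Fact p.Prime], p ∈ S → CoverPointNear h e D (P p) ε}.ncard : ℝ) := by
  classical
  -- the integral equation
  obtain ⟨N, g0, hN, hg0⟩ := Pool.Agent.Helper47.DM.clear h
  obtain ⟨g, hgdef⟩ : ∃ g : ℤ[X], g = C N * g0 := ⟨_, rfl⟩
  have hg : g.map (Int.castRingHom ℚ) = C ((N : ℚ) ^ 2) * h := by
    rw [hgdef, Polynomial.map_mul, map_C, hg0, ← mul_assoc, ← C_mul]
    have : (Int.castRingHom ℚ) N = (N : ℚ) := rfl
    rw [this, sq]
  have hNQ : (N : ℚ) ≠ 0 := by exact_mod_cast hN
  have hdeg := natDegree_eq hN hg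
  have hsep : (g.map (Int.castRingHom ℚ)).Separable := by
    rw [PerfectField.separable_iff_squarefree, hg]
    refine hsq.squarefree_of_dvd ?_
    refine ⟨C ((N : ℚ) ^ 2)⁻¹, ?_⟩
    rw [mul_comm (C ((N : ℚ) ^ 2) * h), ← mul_assoc, ← C_mul,
      inv_mul_cancel₀ (pow_ne_zero 2 hNQ), C_1, one_mul]
  obtain ⟨U, V, R, hR, hUV⟩ := Pool.Agent.Helper47.DM.bezout g hsep
  have hgev : Even g.natDegree := by rw [hdeg]; exact hev
  have hgpos : 0 < g.natDegree := by rw [hdeg]; exact hpos
  obtain ⟨e, q, hD⟩ := Pool.Agent.Helper47.DM.exists_data g U V R hgev hgpos hR hUV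
  refine ⟨e, hD.inj, ?_, ?_, ?_⟩
  · intro k h0
    have h1 := hD.indep.ne_zero k
    apply h1
    have h2 := aeval_eq hg ((e k : ℤ) : ℚ)
    rw [coe_aeval_eq_eval, h0, mul_zero] at h2
    have h3 : aeval ((e k : ℤ) : ℚ) g = ((g.eval (e k) : ℤ) : ℚ) := by
      have := Polynomial.aeval_algebraMap_apply ℚ (e k) g
      simpa using this
    rw [h3] at h2
    exact_mod_cast h2
  · -- the upper bound
    obtain ⟨C1, hC1⟩ := Pool.Agent.Helper47.DM.upper.{v, w} hD
    refine ⟨C1 + 1, fun T hT => ?_⟩
    have hfin : ∀ P : ℤ → Prop, {d : ℤ | d.natAbs ≤ T ∧ Squarefree d ∧ P d}.Finite := by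
      intro P
      refine (Finset.finite_toSet (Finset.Icc (-(T : ℤ)) T)).subset ?_
      rintro d ⟨hd1, -⟩
      rw [Finset.mem_coe, Finset.mem_Icc]
      omega
    have hsub : {D : ℤ | D.natAbs ≤ T ∧ Squarefree D ∧
        (CoverPoint h e D ℚ ∨ ¬ NoSection.{v, w} h e D)} ⊆
        {D : ℤ | D.natAbs ≤ T ∧ Squarefree D ∧ (Pool.Agent.Helper47.DM.RatPt g e D ∨
          Pool.Agent.Helper47.DM.SecPt.{v, w} g e D)} ∪ {1} := by
      rintro D ⟨h1, h2, h3⟩
      by_cases hD1 : D = 1
      · exact Or.inr hD1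
      left
      refine ⟨h1, h2, ?_⟩
      rcases h3 with ⟨x, z, y, w, hxz, hy, hw⟩ | h3
      · left
        by_cases hz : z = 0
        · exfalso
          apply hD1
          subst hz
          have hx : x ≠ 0 := hxz.resolve_right (fun h => h rfl)
          simp only [mul_zero, sub_zero, Finset.prod_const, Finset.card_univ,
            Fintype.card_fin] at hw
          have hD0 : (D : ℚ) ≠ 0 := by exact_mod_cast h2.ne_zero
          have hsqD : IsSquare ((D : ℤ) : ℚ) := by
            have hw0 : w ≠ 0 := by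
              rintro rfl
              rw [zero_pow two_ne_zero, mul_zero] at hw
              exact (pow_ne_zero 6 hx) hw.symm
            refine ⟨x ^ 3 / w, ?_⟩
            field_simp
            rw [hw]
          rw [Rat.isSquare_intCast_iff] at hsqD
          obtain ⟨t, ht⟩ := hsqD
          have htu := h2 t ⟨1, by rw [ht, mul_one]⟩
          rcases Int.isUnit_iff.1 htu with h5 | h5 <;> rw [ht, h5] <;> norm_num
        · refine ⟨x / z, N * y / z ^ (h.natDegree / 2), w / z ^ 3, ?_, ?_⟩
          · have h4 := Pool.Agent.Helper47.DM.aeval_eq_hom g x z hz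
            rw [hom_eq hN hg, ← hy] at h4
            have h5 : z ^ g.natDegree = (z ^ (h.natDegree / 2)) ^ 2 := by
              rw [← pow_mul, hdeg, Nat.div_mul_cancel hev.two_dvd]
            rw [h5] at h4
            have h6 : (z ^ (h.natDegree / 2)) ^ 2 ≠ 0 := pow_ne_zero 2 (pow_ne_zero _ hz)
            rw [div_pow, div_eq_iff h6, h4]
            ring
          · rw [Pool.Agent.Helper47.DM.aeval_gp]
            have h4 : ∏ k, (x / z - (e k : ℚ)) = (∏ k, (x - (e k : ℚ) * z)) / z ^ 6 := by
              rw [eq_div_iff (pow_ne_zero 6 hz)]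
              have h5 : (z : ℚ) ^ 6 = ∏ _k : Fin 6, z := by simp
              rw [h5, ← Finset.prod_mul_distrib]
              refine Finset.prod_congr rfl fun k _ => ?_
              field_simp
            rw [h4, ← hw]
            field_simp
      · right
        unfold NoSection at h3
        push Not at h3
        obtain ⟨F, Ω, i1, i2, i3, i4, i5, i6, i7, x, y, w, U', hx, hy, hw, hU', hG⟩ := h3
        obtain ⟨G⟩ := hG
        obtain ⟨G'⟩ := toSection G
        refine ⟨F, Ω, i1, i2, i3, i4, i5, i6, IsAlgClosure.isAlgClosed F,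
          IsAlgClosure.isAlgebraic, U', G', x, N * y, w, hU', hx, ?_, ?_⟩
        · rw [aeval_eq hg x, mul_pow, hy]
        · rw [Pool.Agent.Helper47.DM.aeval_gp]
          exact hw
    have h4 := (Set.ncard_le_ncard hsub ((hfin _).union (Set.finite_singleton 1))).trans
      (Set.ncard_union_le _ _)
    rw [Set.ncard_singleton] at h4
    have h5 : ({D : ℤ | D.natAbs ≤ T ∧ Squarefree D ∧
        (CoverPoint h e D ℚ ∨ ¬ NoSection.{v, w} h e D)}.ncard : ℝ) ≤
        ({D : ℤ | D.natAbs ≤ T ∧ Squarefree D ∧ (Pool.Agent.Helper47.DM.RatPt g e D ∨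
          Pool.Agent.Helper47.DM.SecPt.{v, w} g e D)}.ncard : ℝ) + 1 := by
      exact_mod_cast h4
    have h6 := hC1 T hT
    have hTr : (3 : ℝ) ≤ T := by exact_mod_cast hT
    have hlog : 0 < Real.log (T : ℝ) := Real.log_pos (by linarith)
    have h7 : 1 ≤ (T : ℝ) * Real.log T ^ (-(1 / 5) : ℝ) := by
      rw [Real.rpow_neg hlog.le, ← div_eq_mul_inv, le_div_iff₀ (Real.rpow_pos_of_pos hlog _),
        one_mul]
      have hlog1 : 1 ≤ Real.log (T : ℝ) := by
        rw [Real.le_log_iff_exp_le (by linarith)]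
        exact (Real.exp_one_lt_d9.le.trans (by norm_num)).trans hTr
      calc Real.log (T : ℝ) ^ (1 / 5 : ℝ) ≤ Real.log (T : ℝ) ^ (1 : ℝ) :=
            Real.rpow_le_rpow_of_exponent_le hlog1 (by norm_num)
        _ = Real.log T := Real.rpow_one _
        _ ≤ T - 1 := Real.log_le_sub_one_of_pos (by linarith)
        _ ≤ T := by linarith
    have h8 : (C1 + 1) * T * Real.log T ^ (-(1 / 5) : ℝ) = C1 * T * Real.log T ^ (-(1 / 5) : ℝ) +
        T * Real.log T ^ (-(1 / 5) : ℝ) := by ring
    rw [h8]
    linarith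
  · -- the lower bound
    intro S P₀ P hP₀ hP ε hε
    -- the radius
    have hrad : ∀ p : ℕ, ∃ d : ℝ, 0 < d ∧ d ≤ ε ∧ ∀ [Fact p.Prime], d ≤ ε * ‖(N : ℚ_[p])‖ := by
      intro p
      by_cases hp : p.Prime
      · have : Fact p.Prime := ⟨hp⟩
        have h1 : 0 < ‖(N : ℚ_[p])‖ := norm_pos_iff.2 (by exact_mod_cast hN)
        exact ⟨min ε (ε * ‖(N : ℚ_[p])‖), lt_min hε (mul_pos hε h1), min_le_left _ _,
          fun {_} => min_le_right _ _⟩
      · exact ⟨ε, hε, le_rfl, fun {h} => absurd h.out hp⟩
    choose d hd0 hd1 hd2 using hrad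
    obtain ⟨δ, hδ, hδS⟩ := Pool.Agent.Helper47.WA.exists_pos_le S d fun p _ => hd0 p
    obtain ⟨η, hη⟩ : ∃ η : ℝ, η = min δ ε / 2 := ⟨_, rfl⟩
    have hη0 : 0 < η := by rw [hη]; exact half_pos (lt_min hδ hε)
    have hηε : η + η ≤ ε := by
      rw [hη]
      have := min_le_right δ ε
      linarith
    have hηS : ∀ (p : ℕ) [Fact p.Prime], p ∈ S → η + η ≤ ε * ‖(N : ℚ_[p])‖ := by
      intro p _ hpS
      have h1 := hδS p hpS
      have h2 := hd2 p
      have h3 := min_le_left δ ε
      rw [hη]
      linarith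
    have hN1 : (1 : ℝ) ≤ |(N : ℝ)| := by
      have : 1 ≤ |N| := Int.one_le_abs hN
      exact_mod_cast this
    -- the points of `y² = g(x)`
    obtain ⟨a0, b0, hb0, hab0, ha0, hbb0⟩ := Pool.Agent.Helper47.DM.perturb g U V R hR hUV P₀.1
      ((N : ℝ) * P₀.2) (by
        rw [aeval_eq hg, mul_pow]
        congr 1) η hη0
    have hpts : ∀ (p : ℕ) [Fact p.Prime], ∃ ab : ℚ_[p] × ℚ_[p], ab.2 ≠ 0 ∧
        ab.2 ^ 2 = aeval ab.1 g ∧
        (p ∈ S → ‖ab.1 - (P p).1‖ < η ∧ ‖ab.2 - (N : ℚ_[p]) * (P p).2‖ < η) := by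
      intro p _
      by_cases hpS : p ∈ S
      · obtain ⟨a, b, hb, hab, ha, hbb⟩ := Pool.Agent.Helper47.DM.perturb g U V R hR hUV (P p).1
          ((N : ℚ_[p]) * (P p).2) (by
            rw [aeval_eq hg, mul_pow]
            congr 1
            exact hP p hpS) η hη0
        exact ⟨(a, b), hb, hab, fun _ => ⟨ha, hbb⟩⟩
      · obtain ⟨x, z, y, hxz, hy⟩ := hX.2 p
        obtain ⟨a, b, hb, hab⟩ := Pool.Agent.Helper47.DM.affine_of_proj g U V R hR hUV hgev hgpos
          x z ((N : ℚ_[p]) * y) hxz (by rw [hom_eq hN hg, mul_pow, hy])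
        exact ⟨(a, b), hb, hab, fun h => absurd h hpS⟩
    choose ab hab1 hab2 hab3 using hpts
    obtain ⟨c, T₀, hc, hlow⟩ := Pool.Agent.Helper47.DM.lower hD S a0 b0 hb0 hab0
      (fun p _ => (ab p).1) (fun p _ => (ab p).2) (fun p _ => hab1 p) (fun p _ => hab2 p) η hη0
    refine ⟨c, hc, T₀, fun T hT => (hlow T hT).trans (Nat.cast_le.2 ?_)⟩
    have hfin : {D : ℤ | D.natAbs ≤ T ∧ Squarefree D ∧ CoverLocallySoluble h e D ∧
            CoverPointNear h e D P₀ ε ∧
            ∀ (p : ℕ) [Fact p.Prime], p ∈ S → CoverPointNear h e D (P p) ε}.Finite := by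
      refine (Finset.finite_toSet (Finset.Icc (-(T : ℤ)) T)).subset ?_
      rintro d ⟨hd1, -⟩
      rw [Finset.mem_coe, Finset.mem_Icc]
      omega
    refine Set.ncard_le_ncard ?_ hfin
    rintro D ⟨h1, h2, ⟨x0, y0, w0, ⟨h3, h4⟩, h5, h6⟩, h7⟩
    have conv : ∀ (K : Type) [Field K] [CharZero K] (x y w : K), y ^ 2 = aeval x g →
        (D : K) * w ^ 2 = aeval x (Pool.Agent.Helper47.DM.gp e) →
        (y / N) ^ 2 = aeval x h ∧ (D : K) * w ^ 2 = ∏ k, (x - (e k : K)) := by
      intro K _ _ x y w hy hw
      have hNK : (N : K) ≠ 0 := by exact_mod_cast hN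
      refine ⟨?_, ?_⟩
      · rw [div_pow, hy, aeval_eq hg]
        field_simp
      · rw [hw, Pool.Agent.Helper47.DM.aeval_gp]
    have conv2 : ∀ (K : Type) [Field K] [CharZero K] (x y w : K), y ^ 2 = aeval x h →
        (D : K) * w ^ 2 = ∏ k, (x - (e k : K)) → CoverPoint h e D K := by
      intro K _ _ x y w hy hw
      refine ⟨x, 1, y, w, Or.inr one_ne_zero, ?_, ?_⟩
      · rw [hy, form, aeval_eq_sum_range]
        refine Finset.sum_congr rfl fun i _ => ?_
        rw [one_pow, mul_one, Algebra.smul_def]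
        rfl
      · rw [hw]
        refine Finset.prod_congr rfl fun k _ => ?_
        rw [mul_one]
    have hreal := conv ℝ x0 y0 w0 h5 h6
    refine ⟨h1, h2, ⟨conv2 ℝ x0 (y0 / N) w0 hreal.1 hreal.2, fun p _ => ?_⟩, ?_, fun p _ hpS => ?_⟩
    · obtain ⟨x, y, w, -, hy, hw⟩ := h7 p
      have := conv ℚ_[p] x y w hy hw
      exact conv2 ℚ_[p] x (y / N) w this.1 this.2
    · refine ⟨x0, y0 / N, w0, ?_, ?_, hreal.1, hreal.2⟩
      · have h8 := norm_sub_le_norm_sub_add_norm_sub x0 a0 P₀.1
        rw [Real.norm_eq_abs] at h8 ha0 ⊢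
        rw [Real.norm_eq_abs, Real.norm_eq_abs] at h8
        linarith
      · have hNr : (N : ℝ) ≠ 0 := by exact_mod_cast hN
        have h8 := norm_sub_le_norm_sub_add_norm_sub y0 b0 ((N : ℝ) * P₀.2)
        have h9 : y0 / N - P₀.2 = (y0 - N * P₀.2) / N := by field_simp
        rw [h9, norm_div, div_lt_iff₀ (norm_pos_iff.2 hNr)]
        rw [Real.norm_eq_abs (N : ℝ)]
        have h10 : ‖y0 - b0‖ < η := h4
        calc ‖y0 - N * P₀.2‖ ≤ ‖y0 - b0‖ + ‖b0 - N * P₀.2‖ := h8
          _ < ε := by linarith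
          _ ≤ ε * |(N : ℝ)| := le_mul_of_one_le_right hε.le hN1
    · obtain ⟨x, y, w, hxy, hy, hw⟩ := h7 p
      obtain ⟨h8, h9⟩ := hxy hpS
      obtain ⟨h10, h11⟩ := hab3 p hpS
      have h12 := conv ℚ_[p] x y w hy hw
      have hNp : (N : ℚ_[p]) ≠ 0 := by exact_mod_cast hN
      refine ⟨x, y / N, w, ?_, ?_, h12.1, h12.2⟩
      · have h13 := norm_sub_le_norm_sub_add_norm_sub x (ab p).1 (P p).1
        linarith
      · have h13 := norm_sub_le_norm_sub_add_norm_sub y (ab p).2 ((N : ℚ_[p]) * (P p).2)
        have h14 : y / N - (P p).2 = (y - N * (P p).2) / N := by field_simp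
        rw [h14, norm_div, div_lt_iff₀ (norm_pos_iff.2 hNp)]
        have h15 := hηS p hpS
        linarith

end Pool.Agent.Results.MP_c1dca2_ag.DoubleCovers
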