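import Pool.Agent.Helper45.EP.GeoE
import Pool.Agent.Helper45.EP.UnrT

/-!
# Sections at primes of bad reduction, for curves in the tower of a superelliptic curve

Let `A` be a discrete valuation ring with finite residue field and with a field of fractions `k` of
characteristic zero, for instance the local ring of a prime `v` of a number field `k`, or the valuation ring
of a finite extension `k` of `ℚ_p`.  Let `ℓ` be a prime number which is invertible in `A`, `j ≥ 0` and
`m = ℓ^j`, and let `f ∈ A[x]` be a polynomial with invertible leading coefficient such that `f(x^m)` has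
separable reduction and a degree `≥ 3` divisible by `ℓ`.

**The tower.**  Let `Ω ⊇ k(x)` be algebraically closed, `u^m = x`, `y^ℓ = f(x)`, and let `T ⊆ Ω` be the
maximal unramified pro-`ℓ` extension of `k̄(u, y)`.  By Abhyankar's lemma `T` is the union of all finite
Galois extensions of `k̄(x)` whose group is an `ℓ`-group and whose ramification indices divide `ℓ` over the
zeros of `f` and `m` over `0, ∞`, and which are unramified elsewhere.  So the curves `D` over `k` with
function field `F ⊆ T` are the covers of the line with a geometric monodromy group that is an arbitrary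
`ℓ`-group, with ramification indices dividing `ℓ` over the zeros of `f` and `m` over `0, ∞`.

**Theorem.**  Let `F` be an algebraic extension of `k(x)`, for instance the function field of such a curve
`D`, and suppose that the Gauss valuation of `k(x)` given by `A` is ramified in `F ∩ T`: one of the inertia
groups in `Gal(Ω/k(x))` of the prolongations of the Gauss valuation to `Ω` acts non-trivially on `F ∩ T`.
Let `N ⊇ T F` be an extension of `F`, let `s` be a section of `Gal(N/F) → G_k`, and let `V` be a prolongation
of `A` to `k̄`, with decomposition group `D_V`.  Then the restriction of `s` to `D_V` is on `T` the section of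
exactly one branch point: there is exactly one valuation ring `W` of `T` over `k` above a zero of `f`, or, if
`j ≥ 1`, above `x = 0` or `x = ∞`, such that `s(D_V)` is contained in the decomposition group of `W`; and the
point of the curve with function field `F ∩ T` below `W` is rational over the decomposition field of `V`.

If `F ⊆ T` and the Gauss valuation is not ramified in `F`, then the normalisation of `ℙ¹` over `A` in `F` is
smooth by Abhyankar's lemma, that is, `D` has good reduction.  So let `k` be a number field and let `D` be a
curve over `k` in the tower of `f ∈ O_k[x]`, with ramification index `ℓ` over `ℙ¹` at all points above the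
zeros of `f` and index `m` at all points above `0` and `∞`.  For every prime `v` outside the finite set of
primes which divide `ℓ`, the leading coefficient or the discriminant of `f(x^m)`, a set which does not depend
on `D`, we have: if `D` has bad reduction at `v`, then every section of `π₁(D) → G_k`, and of the
geometrically pro-`ℓ` fundamental group of `D`, and of the fundamental groups of the open subcurves of `D`
and of all curves which dominate `D`, is at `v`, `ℓ`-adically, the section of exactly one branch point, and
this point of `D` is `k_v`-rational.  In particular, if `D` has bad reduction at one of these `v` and no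
`k_v`-rational ramification point, then there are no sections, and the section conjecture holds for `D`; if
`m = 1` and `f` has no root in `k_v`, this is so for all these curves `D` with bad reduction at `v`.

**Examples.**  (1) Let `E ⊆ T` be a finite extension of `k(x)` in which the Gauss valuation is not ramified,
`g ∈ E` a unit for its prolongations whose `ℓ`-th roots are in `T`, and `a ∈ k` of a valuation prime to `ℓ`.
Then the curve `D_a : t^ℓ = a g` has the properties of the theorem: the inertia groups fix the `ℓ`-th roots
of `g`, but not `a^(1/ℓ)`.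
(2) `ℓ = 2`, `m = 1`.  Let `P, Q ∈ A[x]` be of degrees `2n` and `4n` such that `f = Q (P² - Q)` has an
invertible leading coefficient and separable reduction.  The field `k̄(x, √(P ± √(P² - Q)))` is in the
tower and is a Galois extension of `k̄(x)` with the dihedral group of order `8`.  For its forms
`t² + a w² = 2 P(x)`, `a t² w² = Q(x)`, `a ∈ kˣ` of odd valuation, the theorem can be applied; they have no
points over the completion of `k` above the zeros of `P² - Q`, so locally every section is `2`-adically the
section of exactly one rational point above a root of `Q`, and there are no sections if `Q` has no root in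
the completion.

**Relation to known results.**  For the curves `d y^ℓ = f(x)`, `d` of a valuation prime to `ℓ`, and for
`d y^ℓ = f(a x^m)`, `a` of a valuation not divisible by `m`, and for their coverings of `ℓ`-power type
these are results of the library (`OnePointLocally`, `ProEllSections`, `TwistsByRotations`,
`EtaleCoverings`, `CoveringsOfTwistsByRotations`).  Here `D` is not assumed to dominate one of these curves
(in the examples it does not).  A section of `D` lifts to a covering of `D` of degree dividing `ℓ m`, given by
the ratios of `y, u` and elements of `k̄`, which dominates a curve `d y^ℓ = f(a x^m)`; the point is to show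
that one of the two conditions on `d` and `a` is satisfied for every section if the Gauss valuation is
ramified in `F ∩ T`.

The fundamental group is described through valuations.  Let `U` be a smooth geometrically connected
curve over `k` with function field `F`, let `Ω` be an algebraic closure of `F`, and let `F_U` be the
maximal extension of `F` inside `Ω` which is unramified over the closed points of `U`, that is, over
their local rings, which are valuation rings of `F`.  Then `π₁(U) = Gal(F_U/F)`, and the map
`π₁(U) → G_k` is the restriction of automorphisms to the algebraic closure of `k` in `Ω`.  We have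
`T ⊆ F_U` if `u` and `y` are unramified over `k̄ F` above `U`; this is so for all open subcurves of `D` if
`D → ℙ¹` has ramification index `ℓ` at all points over the zeros of `f` and index `m` at all points over
`0` and `∞`.

**Proof.**  Let `s` be a section; it acts on `T`.  There are `δ, ρ ∈ k̄` with `δ^ℓ, ρ^m ∈ k` and
`s(σ) y = (σδ/δ) y`, `s(σ) u = (σρ/ρ) u` (Hilbert 90).  (1) The Gauss valuation of `k̄(u)` at `V` has exactly
one prolongation `O` to `T`, and the group of the automorphisms of `T` over `k̄(x)` acts faithfully on the
residue field of `O`.  (2) For `σ` in the inertia group of `V` there is exactly one `γ_σ ∈ Gal(T/k̄(x))` with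
the same action as `s(σ)` on this residue field, and a weight argument shows that `γ_σ = 1` if `σ` fixes `δ`
and `ρ` (library).  So the `γ_σ` are the powers of one `γ` with `γ^(ℓ m) = 1`.  (3) Let `γ = 1`.  Let
`g ∈ Gal(Ω/k(x))` be in the inertia group of a prolongation of the Gauss valuation of `k(x)`.  After
conjugation with a prolongation of an automorphism `s(τ)` this valuation ring induces `V` on `k̄`, and hence
`O` on `T`, since `O` is unique; `g` and `s(g|k̄)` have the same (trivial) action on the residue field of `O`,
and they are equal on `T`.  So `g` fixes `F ∩ T`, a contradiction.  (4) Let `γ ≠ 1`.  A power of `γ` has order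
`ℓ`, it fixes exactly one place `W` of `T`, and `s(D_V)` normalises the group generated by this power and
fixes `W`; the place `W` is above a branch point.  (5) Uniqueness: if `s(D_V)` fixes a place `W'` above a
branch point, there is an automorphism `c` of order `ℓ` of `T` over `k̄(x)` which fixes `W'` and commutes
with the image of the inertia group, hence with `γ`.  So `γ` permutes the places fixed by `c`, and `W'` is
the only one; so `γ` fixes `W'`, and `W' = W`.
-/

open Polynomial

namespace Pool.Agent.Results.MP_c1dca2_ag.PrimesOfBadReduction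

section definitions

variable (ℓ : ℕ) (k F Ω : Type) [Field k] [Field F] [Field Ω] [Algebra k F] [Algebra F Ω]
  [Algebra k Ω]

/-- The inertia group of the valuation ring `W` of `Ω`, as a subgroup of `Gal(Ω/F)`: the
automorphisms of `Ω` over `F` that map `W` onto itself and act as the identity on its residue
field. -/
noncomputable def inertia (W : ValuationSubring Ω) : Subgroup (Ω ≃ₐ[F] Ω) :=
  (W.inertiaSubgroup F).map (W.decompositionSubgroup F).subtype

/-- `F_U`, for a set `U` of valuation rings of `F`: the elements of `Ω` fixed by the inertia groups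
of all valuation rings `W` of `Ω` with `W ∩ F ∈ U`.  If `Ω` is an algebraic closure of a field `F`
of characteristic zero, this is the maximal extension of `F` in `Ω` unramified over `U`. -/
noncomputable def unramified (U : Set (ValuationSubring F)) : IntermediateField F Ω :=
  ⨅ W : {W : ValuationSubring Ω // W.comap (algebraMap F Ω) ∈ U},
    IntermediateField.fixedField (inertia F Ω W.1)

/-- `k̄ F`, the compositum of `F` and of the algebraic closure of `k` in `Ω`. -/
noncomputable def geomField : IntermediateField F Ω :=
  IntermediateField.adjoin F (algebraicClosure k Ω : Set Ω)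

/-- The element `t` of `Ω` is ramified over `k̄ F` at the valuation ring `W` of `Ω`: no nonzero
element of `k̄ F` has the same valuation as `t`. -/
def RamifiedAt {Ω : Type} [Field Ω] [Algebra F Ω] [Algebra k Ω] (W : ValuationSubring Ω) (t : Ω) :
    Prop :=
  ∀ w ∈ geomField k F Ω, w ≠ 0 → ¬ (t / w ∈ W ∧ (t / w)⁻¹ ∈ W)

/-- The algebraic extension `L` of `K` in `Ω` is unramified at all valuation rings of `Ω` that
contain `k`: every nonzero element of `L` has the same valuation as an element of `K`.  (If `K` is
a function field of one variable over the algebraic closure of `k` and `k` has characteristic zero,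
then this says that `L/K` is unramified over all points of the smooth projective curve.) -/
def Unramified {k K Ω : Type} [Field k] [Field K] [Field Ω] [Algebra k Ω] [Algebra K Ω]
    (L : IntermediateField K Ω) : Prop :=
  ∀ W : ValuationSubring Ω, (∀ c : k, algebraMap k Ω c ∈ W) → ∀ z ∈ L, z ≠ 0 →
    ∃ t : K, t ≠ 0 ∧ z / algebraMap K Ω t ∈ W ∧ (z / algebraMap K Ω t)⁻¹ ∈ W

/-- `L/K` is a finite Galois extension whose degree is a power of `ℓ`. -/
def FiniteProEll (ℓ : ℕ) {K Ω : Type} [Field K] [Field Ω] [Algebra K Ω]
    (L : IntermediateField K Ω) : Prop :=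
  FiniteDimensional K L ∧ IsGalois K L ∧ ∃ m : ℕ, Module.finrank K L = ℓ ^ m

/-- The maximal unramified pro-`ℓ` extension of `K` in `Ω`: the compositum of the finite Galois
extensions of `K` whose degree is a power of `ℓ` and which are unramified. -/
noncomputable def maxProEll (ℓ : ℕ) (k K Ω : Type) [Field k] [Field K] [Field Ω] [Algebra k Ω]
    [Algebra K Ω] : IntermediateField K Ω :=
  ⨆ L : {L : IntermediateField K Ω // FiniteProEll ℓ L ∧ Unramified (k := k) L}, L.1

/-- The field `k̄(u, y)`, for elements `u, y` of `Ω`. -/
noncomputable def curveField {Ω : Type} [Field Ω] [Algebra k Ω] (u y : Ω) :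
    IntermediateField k Ω :=
  IntermediateField.adjoin k ((algebraicClosure k Ω : Set Ω) ∪ {u, y})

/-- The tower: the maximal unramified pro-`ℓ` extension of `k̄(u, y)`, as an extension of `k`. -/
noncomputable def tower {Ω : Type} [Field Ω] [Algebra k Ω] (u y : Ω) : IntermediateField k Ω :=
  (maxProEll ℓ k (curveField k u y) Ω).restrictScalars k

/-- The map `τ : M → M` acts as `σ : K → K` on the elements that the fields `K` and `M` have in
common when they are regarded as subfields of `Ω` through `i` and `j`. -/
def ActsAs {K M Ω : Type} [Field K] [Field M] [Field Ω] (i : K →+* Ω) (j : M →+* Ω) (σ : K → K)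
    (τ : M → M) : Prop :=
  ∀ c z, j z = i c → j (τ z) = i (σ c)

/-- Let `k ⊆ K ⊆ Ω` and `F ⊆ N ⊆ Ω` be fields.  A splitting of `Gal(N/F) → Gal(K/k)`: a continuous
homomorphism `s` from `Gal(K/k)` to `Gal(N/F)` such that `s(σ)` acts as `σ` on the elements of
`K ∩ N`. -/
structure Splitting (K N : Type) [Field K] [Field N] [Algebra k K] [Algebra F N] [Algebra K Ω]
    [Algebra N Ω] where
  /-- the homomorphism `Gal(K/k) → Gal(N/F)` -/
  toHom : (K ≃ₐ[k] K) →* (N ≃ₐ[F] N)
  cont : Continuous toHom
  compat : ∀ σ : K ≃ₐ[k] K, ActsAs (algebraMap K Ω) (algebraMap N Ω) σ (toHom σ)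

end definitions

section places

variable {k F N Ω : Type} [Field k] [Field F] [Field N] [Field Ω] [Algebra k F] [Algebra F Ω]
  [Algebra k Ω] [Algebra F N] [Algebra N Ω]

/-- The valuation ring `W` of `N` contains `k`, and the function `t ∈ F` is in its maximal ideal. -/
def ZeroAt (k : Type) {F N : Type} [Field k] [Field F] [Field N] [Algebra k F] [Algebra F N]
    (W : ValuationSubring N) (t : F) : Prop :=
  (∀ c : k, algebraMap F N (algebraMap k F c) ∈ W) ∧ algebraMap F N t ∈ W.nonunits

/-- The valuation ring `W` of `N` over `k` lies above a zero of the function `h`, or, if `j ≥ 1`, above a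
zero or a pole of the function `x`. -/
def AboveBranchPoint (k : Type) {F N : Type} [Field k] [Field F] [Field N] [Algebra k F]
    [Algebra F N] (j : ℕ) (h x : F) (W : ValuationSubring N) : Prop :=
  ZeroAt k W h ∨ 1 ≤ j ∧ (ZeroAt k W x ∨ ZeroAt k W x⁻¹)

/-- The point below `W` of the curve with function field `F ∩ T` is rational over the decomposition field of
the valuation ring `V` of `L`: for every `z ∈ F ∩ T ∩ W` there is a `c ∈ L`, fixed by all automorphisms of
`L` over `k` which map `V` to itself, such that `z - c` is in the maximal ideal of `W`. -/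
def LocallyRational (k F : Type) {N L Ω : Type} [Field k] [Field F] [Field N] [Field L] [Field Ω]
    [Algebra k Ω] [Algebra F Ω] [Algebra k L] [Algebra F N] [Algebra L Ω] [Algebra N Ω]
    (V : ValuationSubring L) (T : IntermediateField k Ω) (W : ValuationSubring N) : Prop :=
  ∀ z : F, algebraMap F Ω z ∈ T → algebraMap F N z ∈ W →
    ∃ c : L, (∀ σ : L ≃ₐ[k] L, (∀ c : L, σ c ∈ V ↔ c ∈ V) → σ c = c) ∧
      ∃ z' ∈ W.nonunits, algebraMap N Ω z' = algebraMap F Ω z - algebraMap L Ω c

/-- Let `D_V` be the decomposition group of the valuation ring `V` of `L`.  The elements of `s(D_V)` map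
`W ∩ T` onto itself. -/
def LocallyIn {L : Type} [Field L] [Algebra k L] [Algebra L Ω] (V : ValuationSubring L)
    (s : Splitting k F Ω L N) (T : IntermediateField k Ω) (W : ValuationSubring N) : Prop :=
  ∀ σ : L ≃ₐ[k] L, (∀ c : L, σ c ∈ V ↔ c ∈ V) →
    ∀ z : N, algebraMap N Ω z ∈ T → (s.toHom σ z ∈ W ↔ z ∈ W)

/-- The restriction of `s` to `D_V` induces on `T` the section of exactly one branch point, which is
rational over the decomposition field of `V`: there is a valuation ring `W` of `N` above a branch point
with this property of rationality such that the elements of `s(D_V)` map `W ∩ T` onto itself, and `W ∩ T` is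
the only valuation ring of `T` above a branch point with this property. -/
def LocallyFromOneBranchPoint {L : Type} [Field L] [Algebra k L] [Algebra L Ω]
    (V : ValuationSubring L) (j : ℕ) (h x : F) (s : Splitting k F Ω L N)
    (T : IntermediateField k Ω) : Prop :=
  ∃ W : ValuationSubring N, AboveBranchPoint k j h x W ∧ LocallyRational k F V T W ∧
    LocallyIn V s T W ∧
    ∀ W' : ValuationSubring N, AboveBranchPoint k j h x W' → LocallyIn V s T W' →
      ∀ z : N, algebraMap N Ω z ∈ T → (z ∈ W' ↔ z ∈ W)

end places

section gauss

variable (A k : Type) [CommRing A] [IsDomain A] [IsDiscreteValuationRing A] [Field k] [Algebra A k]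

/-- The valuation ring `W` of `Ω` lies above the Gauss valuation of `k(x)`: the elements of the maximal
ideal of `A` are in the maximal ideal of `W`, and the polynomials in `x` with coefficients in `A` which
are not all in the maximal ideal are units of `W`. -/
def AboveGauss {Ω : Type} [Field Ω] [Algebra k Ω] (x : Ω) (W : ValuationSubring Ω) : Prop :=
  (∀ a ∈ IsLocalRing.maximalIdeal A, algebraMap k Ω (algebraMap A k a) ∈ W.nonunits) ∧
    ∀ p : A[X], (∃ n, IsUnit (p.coeff n)) → aeval x (p.map (algebraMap A k)) ∈ W ∧
      (aeval x (p.map (algebraMap A k)))⁻¹ ∈ W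

/-- The Gauss valuation of `k(x)` is ramified in `F ∩ T`: an element of the inertia group in
`Gal(Ω/k(x))` of a valuation ring above it moves an element of `F ∩ T`. -/
def GaussRamified {F Ω : Type} [Field F] [Field Ω] [Algebra k F] [Algebra F Ω] [Algebra k Ω]
    (x : F) (T : IntermediateField k Ω) : Prop :=
  ∃ W : ValuationSubring Ω, AboveGauss A k (algebraMap F Ω x) W ∧
    ∃ g ∈ inertia (IntermediateField.adjoin k {algebraMap F Ω x}) Ω W,
      ∃ z : F, algebraMap F Ω z ∈ T ∧ g (algebraMap F Ω z) ≠ algebraMap F Ω z

/-- The leading coefficient of `f ∈ A[x]` is invertible, and `f(x^m)` has separable reduction and a degree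
`≥ 3` divisible by `ℓ`. -/
def GoodPolynomial {A : Type} [CommRing A] [IsDomain A] [IsDiscreteValuationRing A] (ℓ m : ℕ)
    (f : A[X]) : Prop :=
  IsUnit f.leadingCoeff ∧ ((expand A m f).map (IsLocalRing.residue A)).Separable ∧
    ℓ ∣ (expand A m f).natDegree ∧ 3 ≤ (expand A m f).natDegree

/-- The valuation ring `V` of the extension `L` of `k` lies above `A`. -/
def LiesAbove {L : Type} [Field L] [Algebra k L] (V : ValuationSubring L) : Prop :=
  (∀ a : A, algebraMap k L (algebraMap A k a) ∈ V) ∧
    ∀ a ∈ IsLocalRing.maximalIdeal A, algebraMap k L (algebraMap A k a) ∈ V.nonunits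

/-- Let `F` be an algebraic extension of `k(x)`, `Ω` an algebraic closure of `F`, `u, y ∈ Ω`,
`u^(ℓ^j) = x`, `y^ℓ = f(x)`, and let `T` be the tower of `k̄(u, y)`; suppose that the Gauss valuation of
`k(x)` is ramified in `F ∩ T`.  Then for every set `U` of valuation rings of `F` over `k` such that `u` and
`y` are unramified over `k̄ F` at all valuation rings of `Ω` above `U` we have `T ⊆ F_U`; and for all
extensions `N` of `F` in `Ω` which contain `T`, all sections `s` of `Gal(N/F) → G_k` and all valuation rings
`V` of `k̄` above `A`, the restriction of `s` to the decomposition group of `V` is on `T` the section of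
exactly one branch point, which is rational over the decomposition field. -/
def SectionsAtBadPrimes (ℓ j : ℕ) (f : A[X]) : Prop :=
  ∀ (F Ω : Type) [Field F] [Field Ω] [Algebra k F] [Algebra F Ω] [Algebra k Ω]
    [IsScalarTower k F Ω] [IsAlgClosure F Ω] (x : F) (u y : Ω),
    Transcendental k x → Algebra.IsAlgebraic (IntermediateField.adjoin k {x}) F →
    u ^ ℓ ^ j = algebraMap F Ω x →
    y ^ ℓ = algebraMap F Ω (aeval x (f.map (algebraMap A k))) →
    GaussRamified A k x (tower ℓ k u y) →
    (∀ U : Set (ValuationSubring F),
      (∀ W : ValuationSubring Ω, W.comap (algebraMap F Ω) ∈ U →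
        (∀ c : k, algebraMap k Ω c ∈ W) ∧ ¬ RamifiedAt k F W u ∧ ¬ RamifiedAt k F W y) →
      ∀ z ∈ tower ℓ k u y, z ∈ unramified F Ω U) ∧
    ∀ N : IntermediateField F Ω, (∀ z ∈ tower ℓ k u y, z ∈ N) →
      ∀ (s : Splitting k F Ω (algebraicClosure k Ω) N)
        (V : ValuationSubring (algebraicClosure k Ω)), LiesAbove A k V →
        LocallyFromOneBranchPoint V j (aeval x (f.map (algebraMap A k))) x s (tower ℓ k u y)

end gauss

lemma iSup_congr_prop {α : Type} [CompleteLattice α] {P Q : α → Prop} (h : ∀ L, P L ↔ Q L) :
    (⨆ L : {L // P L}, L.1) = ⨆ L : {L // Q L}, L.1 := by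
  have h1 : P = Q := funext fun L => propext (h L)
  subst h1
  rfl

lemma maxProEll_eq (ℓ : ℕ) (k K Ω : Type) [Field k] [Field K] [Field Ω] [Algebra k Ω]
    [Algebra K Ω] : maxProEll ℓ k K Ω = Pool.Agent.Y157.PS.maxPro ℓ k K Ω := by
  unfold maxProEll Pool.Agent.Y157.PS.maxPro
  refine iSup_congr_prop fun L => ?_
  constructor
  · rintro ⟨⟨h1, h2, h3⟩, h4⟩
    refine ⟨⟨h1, h2, h3⟩, fun W hW z hz hz0 => ?_⟩
    obtain ⟨t, ht, h5, h6⟩ := h4 W hW z hz hz0
    exact ⟨t, ht, div_ne_zero hz0 ((_root_.map_ne_zero _).2 ht), h5, h6⟩
  · rintro ⟨⟨h1, h2, h3⟩, h4⟩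
    refine ⟨⟨h1, h2, h3⟩, fun W hW z hz hz0 => ?_⟩
    obtain ⟨t, ht, -, h5, h6⟩ := h4 W hW z hz hz0
    exact ⟨t, ht, h5, h6⟩

lemma mem_tower (ℓ : ℕ) (k : Type) {Ω : Type} [Field k] [Field Ω] [Algebra k Ω] (u y z : Ω) :
    z ∈ tower ℓ k u y ↔
      z ∈ Pool.Agent.Y157.PS.maxPro ℓ k (Pool.Agent.Helper45.EP.curveF k u y) Ω := by
  unfold tower
  rw [maxProEll_eq]
  rfl

/-- Let `A` be a discrete valuation ring with finite residue field and with a field of fractions `k` of
characteristic zero, for instance the local ring of a number field `k` at a prime, and `ℓ` a prime number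
which is invertible in `A`.  Let `f ∈ A[x]` be a polynomial with invertible leading coefficient such that
`f(x^(ℓ^j))` has separable reduction and a degree `≥ 3` divisible by `ℓ`.  Then for every algebraic
extension `F` of `k(x)` such that the Gauss valuation of `k(x)` is ramified in `F ∩ T`, where `T` is the
maximal unramified pro-`ℓ` extension of `k̄(u, y)`, `u^(ℓ^j) = x`, `y^ℓ = f(x)`, every section of
`Gal(N/F) → G_k`, `N ⊇ T F`, is locally above `A` on `T` the section of exactly one branch point, which is
locally rational. -/
theorem result (A k : Type) [CommRing A] [IsDomain A] [IsDiscreteValuationRing A]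
    [Finite (IsLocalRing.ResidueField A)] [Field k] [CharZero k] [Algebra A k] [IsFractionRing A k]
    (ℓ : ℕ) [Fact ℓ.Prime] (hℓ : IsUnit (ℓ : A)) (j : ℕ) (f : A[X])
    (hf : GoodPolynomial ℓ (ℓ ^ j) f) : SectionsAtBadPrimes A k ℓ j f := by
  obtain ⟨hlc, hsep, hdvd, h3⟩ := hf
  intro F Ω _ _ _ _ _ _ _ x u y hx hFx hu hy hram
  have hℓp : ℓ.Prime := Fact.out
  have hcl : IsAlgClosed Ω := IsAlgClosure.isAlgClosed F
  have halg : Algebra.IsAlgebraic F Ω := IsAlgClosure.isAlgebraic
  have hfx : algebraMap F Ω (aeval x (f.map (algebraMap A k))) =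
      aeval (algebraMap F Ω x) (f.map (algebraMap A k)) := (aeval_algebraMap_apply _ _ _).symm
  rw [hfx] at hy
  refine ⟨fun U hU w hw => ?_, fun N hN s V hV => ?_⟩
  · rw [mem_tower] at hw
    have hch : CharZero Ω := charZero_of_injective_algebraMap (algebraMap k Ω).injective
    change w ∈ Pool.Agent.W620.SC.unramified F Ω U
    rw [Pool.Agent.W620.SC.mem_unramified]
    intro W hW σ hσ
    obtain ⟨hWL, hur, hyr⟩ := hU W hW
    unfold RamifiedAt at hur hyr
    push Not at hur hyr
    obtain ⟨w₁, hw₁, hw₁0, h5, h6⟩ := hur
    obtain ⟨w₂, hw₂, hw₂0, h7, h8⟩ := hyr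
    have hσ' : ∀ z ∈ W, σ z - z ∈ W.nonunits := fun z hz =>
      (Pool.Agent.W620.SC.inertia_spec hσ hz).2
    have hne : ∀ {n : ℕ} {q : Ω} {p : k[X]}, p ≠ 0 → n ≠ 0 →
        q ^ n = aeval (algebraMap F Ω x) p → q ≠ 0 := by
      intro n q p hp hn hq h0
      rw [h0, zero_pow hn, aeval_algebraMap_apply] at hq
      have h9 : aeval x p = 0 := (map_eq_zero_iff _ (algebraMap F Ω).injective).1 hq.symm
      exact hp ((transcendental_iff.1 hx) p h9)
    have hf0 : f.map (algebraMap A k) ≠ 0 := by
      rw [Ne, Polynomial.map_eq_zero_iff (IsFractionRing.injective A k)]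
      rintro rfl
      rw [leadingCoeff_zero] at hlc
      exact hlc.ne_zero rfl
    have hu0 : u ≠ 0 := hne (p := X) X_ne_zero (pow_pos hℓp.pos j).ne' (by rw [aeval_X]; exact hu)
    have hy0 : y ≠ 0 := hne hf0 hℓp.ne_zero hy
    refine Pool.Agent.Helper45.EP.tower_fixed (pow_pos hℓp.pos j) W hWL σ hσ' hw₁ hw₂
      ⟨div_ne_zero hu0 hw₁0, h5, h6⟩ ⟨div_ne_zero hy0 hw₂0, h7, h8⟩ ?_ ?_ hw
    · rw [hu]
      exact σ.commutes _
    · rw [hy, ← hfx]
      exact σ.commutes _
  obtain ⟨W₀, hW₀, g, hg, z₀, hz₀, hgz₀⟩ := hram
  have hgW : ∀ w, g w ∈ W₀ → w ∈ W₀ := by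
    intro w h
    have h6 := (Pool.Agent.W620.SC.inertia_spec (inv_mem hg) h).1
    have h7 : g⁻¹ (g w) = w := g.symm_apply_apply w
    rwa [h7] at h6
  obtain ⟨W, ⟨h1, h2, h4, h5⟩, hun⟩ := Pool.Agent.Helper45.EP.geoE V hV.1 hV.2 hℓ f hlc hsep hdvd
    h3 x hx hFx u y hu hy N (fun z hz => hN z ((mem_tower _ _ _ _ _).2 hz)) s.toHom s.cont
    (fun σ c z hz => s.compat σ c z hz)
    ⟨W₀, g, z₀, hW₀, fun w => ⟨hgW w, fun h =>
      (Pool.Agent.W620.SC.inertia_spec hg h).1⟩, fun w h =>
      (Pool.Agent.W620.SC.inertia_spec hg h).2, (mem_tower _ _ _ _ _).1 hz₀, hgz₀⟩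
  refine ⟨W, ?_, fun z hzT hz => h4 z ((mem_tower _ _ _ _ _).1 hzT) hz,
    fun σ hσ z hz => h5 σ hσ z ((mem_tower _ _ _ _ _).1 hz), fun W' hW' hs' z hz => ?_⟩
  · rcases h2 with h2 | ⟨hj, h2 | h2⟩
    · exact Or.inl ⟨h1, h2⟩
    · exact Or.inr ⟨hj, Or.inl ⟨h1, h2⟩⟩
    · exact Or.inr ⟨hj, Or.inr ⟨h1, h2⟩⟩
  · refine hun W' ?_ ?_ (fun σ hσ z hz => hs' σ hσ z ((mem_tower _ _ _ _ _).2 hz)) z
      ((mem_tower _ _ _ _ _).1 hz)
    · rcases hW' with h | ⟨-, h | h⟩
      · exact h.1
      · exact h.1
      · exact h.1
    · rcases hW' with h | ⟨hj, h | h⟩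
      · exact Or.inl h.2
      · exact Or.inr ⟨hj, Or.inl h.2⟩
      · exact Or.inr ⟨hj, Or.inr h.2⟩

end Pool.Agent.Results.MP_c1dca2_ag.PrimesOfBadReduction
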